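import Mathlib

set_option autoImplicit false

open MeasureTheory Metric Set Filter Topology
open scoped Pointwise

namespace Pool.Agent.Helper873.PBody

/-- Euclidean `n`-space. -/
abbrev E (n : ℕ) : Type := EuclideanSpace ℝ (Fin n)

/-- the hyperplane orthogonal to `u` -/
noncomputable abbrev hyp {n : ℕ} (u : E n) : Submodule ℝ (E n) := (ℝ ∙ u)ᗮ

/-- Lebesgue measure of the hyperplane `hyp u` -/
noncomputable abbrev hypVol {n : ℕ} (u : E n) : Measure (hyp u) := volume

/-- the orthogonal projection onto the hyperplane `hyp u` -/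
noncomputable abbrev hypProj {n : ℕ} (u : E n) : E n → hyp u := (hyp u).orthogonalProjectionOnto

/-- The brightness function: the `(n-1)`-dimensional volume of the orthogonal projection of `K`
onto the hyperplane orthogonal to `u`. -/
noncomputable def bright {n : ℕ} (K : Set (E n)) (u : E n) : ℝ :=
  (hypVol u (hypProj u '' K)).toReal

/-- volume as a real number -/
noncomputable def V {n : ℕ} (K : Set (E n)) : ℝ := (volume K).toReal

/-- the volume swept out when `K` is translated along `[0,u]` -/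
noncomputable def G {n : ℕ} (K : Set (E n)) (u : E n) : ℝ := V (K + segment ℝ 0 u) - V K

/-- the body with support function `p` -/
def body {n : ℕ} (p : E n → ℝ) : Set (E n) := {x | ∀ u, inner ℝ x u ≤ p u}

/-- support functions of origin-symmetric convex bodies (norms) -/
structure Good {n : ℕ} (p : E n → ℝ) : Prop where
  add : ∀ u v, p (u + v) ≤ p u + p v
  smul : ∀ (c : ℝ) u, p (c • u) = |c| * p u
  bd : ∃ r R : ℝ, 0 < r ∧ ∀ u, r * ‖u‖ ≤ p u ∧ p u ≤ R * ‖u‖

/-- normalized norms -/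
def Nice {n : ℕ} (C : ℝ) (p : E n → ℝ) : Prop := Good p ∧ ∀ u, ‖u‖ ≤ p u ∧ p u ≤ C * ‖u‖

/-- the projection body operator on support functions -/
noncomputable def Pm {n : ℕ} (p : E n → ℝ) : E n → ℝ := G (body p)

/-- support functions of `j`-fold iterated projection bodies -/
def S {n : ℕ} (j : ℕ) : Set (E n → ℝ) := {p | ∃ q, Good q ∧ p = Pm^[j] q}

/-- the ultrafilter used for limits -/
noncomputable abbrev Uf : Ultrafilter ℕ := hyperfilter ℕ

/-- invariance under linear maps -/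
def Inv {n : ℕ} (Φ : (E n → ℝ) → ℝ) : Prop :=
  ∀ p, Good p → ∀ A : E n ≃ₗ[ℝ] E n, Φ (fun u => p (A u)) = Φ p

/-- continuity -/
def Cont {n : ℕ} (Φ : (E n → ℝ) → ℝ) : Prop := ∀ p, Good p → ∀ ε > 0, ∃ δ > 0, ∀ q, Good q →
  (∀ u, (1 - δ) * p u ≤ q u ∧ q u ≤ (1 + δ) * p u) → |Φ q - Φ p| < ε

/-- the Banach-Mazur distance to the ball, on support functions -/
noncomputable def bm {n : ℕ} (p : E n → ℝ) : ℝ :=
  sInf {t : ℝ | ∃ A : E n ≃ₗ[ℝ] E n, ∀ u, ‖A u‖ ≤ p u ∧ p u ≤ t * ‖A u‖}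

/-- `K` is a convex body -/
def IsBody {n : ℕ} (K : Set (E n)) : Prop := Convex ℝ K ∧ IsCompact K ∧ (interior K).Nonempty

/-- The support function of `L` is the brightness function of `K`. -/
def IsProjBody {n : ℕ} (K L : Set (E n)) : Prop :=
  ∀ u : E n, ‖u‖ = 1 → IsLUB ((fun x => inner ℝ x u) '' L) (bright K u)

/-- `L` is the `m`-fold iterated projection body of `K`. -/
def IsIter {n : ℕ} : ℕ → Set (E n) → Set (E n) → Prop
  | 0, K, L => L = K
  | m + 1, K, L => ∃ M, IsBody M ∧ IsProjBody K M ∧ IsIter m M L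

/-- The class of Q1: convex bodies that are iterated projection bodies of every order. -/
def InClass {n : ℕ} (K : Set (E n)) : Prop := IsBody K ∧ ∀ m : ℕ, ∃ K', IsBody K' ∧ IsIter m K' K

/-- Banach-Mazur distance of an origin symmetric body to the Euclidean ball. -/
noncomputable def distBall {n : ℕ} (K : Set (E n)) : ℝ :=
  sInf {t : ℝ | 1 ≤ t ∧ ∃ A : E n ≃ₗ[ℝ] E n,
    A '' closedBall 0 1 ⊆ K ∧ K ⊆ (fun x => t • A x) '' closedBall 0 1}

/-- `K` is a direct sum of two sets in complementary non-trivial subspaces. -/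
def Decomposable {n : ℕ} (K : Set (E n)) : Prop :=
  ∃ U W : Submodule ℝ (E n), IsCompl U W ∧ U ≠ ⊥ ∧ W ≠ ⊥ ∧
    ∃ K₁ K₂ : Set (E n), K₁ ⊆ U ∧ K₂ ⊆ W ∧ K = K₁ + K₂

/-- `K` is an ellipsoid -/
def IsEllipsoid {n : ℕ} (K : Set (E n)) : Prop :=
  ∃ (x : E n) (A : E n ≃ₗ[ℝ] E n), K = (fun y => x + A y) '' closedBall 0 1

/-- functionals invariant under invertible linear maps -/
def LinInv {n : ℕ} (Φ : Set (E n) → ℝ) : Prop :=
  ∀ K, IsBody K → ∀ A : E n ≃ₗ[ℝ] E n, Φ (A '' K) = Φ K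

/-- functionals continuous for the Hausdorff distance on convex bodies -/
def HausCont {n : ℕ} (Φ : Set (E n) → ℝ) : Prop :=
  ∀ K, IsBody K → ∀ ε > 0, ∃ δ > 0, ∀ L, IsBody L → hausdorffDist K L < δ → |Φ L - Φ K| < ε

end Pool.Agent.Helper873.PBody
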