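import Mathlib
import Pool.Agent.Helper873.PBody.Defs

set_option autoImplicit false

/-! `exists_coord` and the fibre argument are adapted from `Pool.Agent.Helper876.PB`. -/

open MeasureTheory Metric Set Filter Topology
open scoped Pointwise ENNReal RealInnerProductSpace

namespace Pool.Agent.Helper873.PBody

/-- coordinates adapted to a unit vector -/
lemma exists_coord {m : ℕ} (u : E (m + 1)) (hu : ‖u‖ = 1) :
    ∃ ι : E m →ₗᵢ[ℝ] E (m + 1), (∀ y, ⟪u, ι y⟫ = 0) ∧
      MeasurePreserving (fun p : ℝ × E m => p.1 • u + ι p.2) ∧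
      Function.Surjective (fun p : ℝ × E m => p.1 • u + ι p.2) := by
  have ho : Orthonormal ℝ (({0} : Set (Fin (m + 1))).domRestrict (fun _ : Fin (m + 1) => u)) := by
    constructor
    · intro i; exact hu
    · intro i j hij
      exact absurd (Subsingleton.elim i j) hij
  obtain ⟨b, hb⟩ := ho.exists_orthonormalBasis_extension_of_card_eq (by simp)
  have hb0 : b 0 = u := hb 0 (by simp)
  -- the embedding of `ℝ^m`
  let j : E m →ₗᵢ[ℝ] E (m + 1) :=
    { toFun := fun y => WithLp.toLp 2 (Fin.cons 0 (WithLp.ofLp y) : Fin (m + 1) → ℝ)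
      map_add' := by
        intro x y
        ext i
        refine Fin.cases ?_ (fun i => ?_) i <;> simp
      map_smul' := by
        intro c x
        ext i
        refine Fin.cases ?_ (fun i => ?_) i <;> simp
      norm_map' := by
        intro y
        rw [EuclideanSpace.norm_eq, EuclideanSpace.norm_eq]
        simp [Fin.sum_univ_succ] }
  have hj : ∀ y, j y = WithLp.toLp 2 (Fin.cons 0 (WithLp.ofLp y) : Fin (m + 1) → ℝ) := fun y => rfl
  have hrepr0 : b.repr u = EuclideanSpace.single 0 1 := by rw [← hb0, b.repr_self]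
  have hψ : (fun p : ℝ × E m => p.1 • u + (b.repr.symm.toLinearIsometry.comp j) p.2) =
      (fun x => b.repr.symm x) ∘ (fun x : Fin (m + 1) → ℝ => (WithLp.toLp 2 x : E (m + 1))) ∘
      (MeasurableEquiv.piFinSuccAbove (fun _ : Fin (m + 1) => ℝ) 0).symm ∘
      (Prod.map id (fun y : E m => WithLp.ofLp y)) := by
    funext p
    apply b.repr.injective
    simp only [Function.comp_apply, map_add, map_smul, LinearIsometryEquiv.apply_symm_apply, hrepr0]
    have : b.repr ((b.repr.symm.toLinearIsometry.comp j) p.2) = j p.2 := by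
      simp
    rw [this, hj]
    ext i
    refine Fin.cases ?_ (fun i => ?_) i
    · simp [MeasurableEquiv.piFinSuccAbove]
    · simp [MeasurableEquiv.piFinSuccAbove]
  refine ⟨b.repr.symm.toLinearIsometry.comp j, ?_, ?_, ?_⟩
  · intro y
    have h1 : ⟪u, (b.repr.symm.toLinearIsometry.comp j) y⟫ = ⟪b.repr u, j y⟫ := by
      rw [← b.repr.inner_map_map u]
      congr 1
      simp
    rw [h1, hrepr0, EuclideanSpace.inner_single_left, hj]
    simp
  · rw [hψ]
    have h1 : MeasurePreserving (fun x => b.repr.symm x) := b.repr.symm.measurePreserving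
    have h2 : MeasurePreserving (fun x : Fin (m + 1) → ℝ => (WithLp.toLp 2 x : E (m + 1))) :=
      PiLp.volume_preserving_toLp (Fin (m + 1))
    have h3 := (volume_preserving_piFinSuccAbove (fun _ : Fin (m + 1) => ℝ) 0).symm
    have h4 : MeasurePreserving (Prod.map (id : ℝ → ℝ) (fun y : E m => WithLp.ofLp y)) :=
      (MeasurePreserving.id volume).prod (PiLp.volume_preserving_ofLp (Fin m))
    exact h1.comp (h2.comp (h3.comp h4))
  · rw [hψ]
    refine b.repr.symm.surjective.comp (Function.Surjective.comp ?_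
      (Function.Surjective.comp ?_ ?_))
    · intro x; exact ⟨WithLp.ofLp x, rfl⟩
    · exact MeasurableEquiv.surjective _
    · refine Function.surjective_id.prodMap ?_
      intro x; exact ⟨WithLp.toLp 2 x, rfl⟩

theorem sweep {n : ℕ} (K : Set (E (n + 1))) (hc : Convex ℝ K) (hK : IsCompact K) (u : E (n + 1))
    (hu : ‖u‖ = 1) (δ : ℝ) (hδ : 0 ≤ δ) :
    V (K + segment ℝ 0 (δ • u)) = V K + δ * bright K u := by
  obtain ⟨ι, hι, hΨ, hs⟩ := exists_coord u hu
  set Ψ : ℝ × E n → E (n + 1) := fun p => p.1 • u + ι p.2 with hΨdef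
  have hΨc : Continuous Ψ := by
    have := ι.continuous
    fun_prop
  have hKm : MeasurableSet K := hK.isClosed.measurableSet
  have hvol : ∀ M : Set (E (n + 1)), MeasurableSet M →
      volume M = ∫⁻ y : E n, volume {t : ℝ | Ψ (t, y) ∈ M} := by
    intro M hM
    rw [← hΨ.measure_preimage hM.nullMeasurableSet, Measure.volume_eq_prod,
      Measure.prod_apply_symm (hΨc.measurable hM)]
    rfl
  set Y : Set (E n) := {y | ∃ t : ℝ, Ψ (t, y) ∈ K} with hY
  have hnorm : ∀ p, ‖Ψ p‖ ^ 2 = p.1 ^ 2 + ‖p.2‖ ^ 2 := by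
    intro p
    simp only [hΨdef]
    rw [norm_add_sq_real, norm_smul, hu, inner_smul_left, hι]
    simp
  have hcK : IsCompact (Ψ ⁻¹' K) := by
    refine Metric.isCompact_of_isClosed_isBounded (hK.isClosed.preimage hΨc) ?_
    obtain ⟨R, hR⟩ := hK.isBounded.exists_norm_le
    rw [isBounded_iff_forall_norm_le]
    refine ⟨|R|, fun p hp => ?_⟩
    have h1 := hR _ hp
    have h2 := hnorm p
    have h3 : ‖Ψ p‖ ^ 2 ≤ |R| ^ 2 := pow_le_pow_left₀ (norm_nonneg _) (h1.trans (le_abs_self R)) 2
    rw [Prod.norm_def, max_le_iff]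
    constructor
    · rw [Real.norm_eq_abs]
      apply abs_le_of_sq_le_sq _ (abs_nonneg R)
      nlinarith [sq_nonneg ‖p.2‖]
    · apply le_of_sq_le_sq _ (abs_nonneg R)
      nlinarith [sq_nonneg p.1]
  have hYimg : Y = Prod.snd '' (Ψ ⁻¹' K) := by
    ext y
    constructor
    · rintro ⟨t, ht⟩; exact ⟨(t, y), ht, rfl⟩
    · rintro ⟨p, hp, rfl⟩; exact ⟨p.1, hp⟩
  have hYc : IsCompact Y := by rw [hYimg]; exact hcK.image continuous_snd
  have hYm : MeasurableSet Y := hYc.isClosed.measurableSet
  have hYfin : volume Y ≠ ⊤ := hYc.measure_lt_top.ne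
  -- the projection
  have hmem : ∀ y, ι y ∈ hyp u := by
    intro y
    rw [Submodule.mem_orthogonal_singleton_iff_inner_right]
    exact hι y
  have hsurj : ∀ z ∈ hyp u, ∃ y, ι y = z := by
    intro z hz
    rw [Submodule.mem_orthogonal_singleton_iff_inner_right] at hz
    obtain ⟨⟨t, y⟩, hty⟩ := hs z
    change t • u + ι y = z at hty
    have h1 : ⟪u, t • u + ι y⟫ = t := by
      rw [inner_add_right, inner_smul_right, hι, real_inner_self_eq_norm_sq, hu]
      simp
    rw [hty, hz] at h1
    refine ⟨y, ?_⟩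
    rw [← hty, ← h1]
    simp
  let J : E n →ₗᵢ[ℝ] hyp u :=
    { toLinearMap := LinearMap.codRestrict (hyp u) ι.toLinearMap hmem
      norm_map' := fun y => ι.norm_map y }
  have hJs : Function.Surjective J := by
    rintro ⟨z, hz⟩
    obtain ⟨y, hy⟩ := hsurj z hz
    exact ⟨y, Subtype.ext hy⟩
  let Je : E n ≃ₗᵢ[ℝ] hyp u := LinearIsometryEquiv.ofSurjective J hJs
  have hJe : ∀ y, ((Je y : hyp u) : E (n + 1)) = ι y := fun y => rfl
  have hproj : (hyp u).orthogonalProjectionOnto '' K = Je '' Y := by
    have hP : ∀ p, (hyp u).orthogonalProjectionOnto (Ψ p) = Je p.2 := by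
      intro p
      simp only [hΨdef, map_add, map_smul]
      have h1 : (hyp u).orthogonalProjectionOnto u = 0 := by
        rw [Submodule.orthogonalProjectionOnto_eq_zero_iff]
        rw [Submodule.mem_orthogonal]
        intro z hz
        rw [Submodule.mem_orthogonal_singleton_iff_inner_left] at hz
        exact hz
      have h2 : (hyp u).orthogonalProjectionOnto (ι p.2) = Je p.2 := by
        have := (hyp u).orthogonalProjectionOnto_mem_subspace_eq_self (Je p.2)
        rw [← this]
        rfl
      rw [h1, h2]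
      simp
    ext x
    constructor
    · rintro ⟨z, hz, rfl⟩
      obtain ⟨p, rfl⟩ := hs z
      exact ⟨p.2, ⟨p.1, hz⟩, (hP p).symm⟩
    · rintro ⟨y, ⟨t, ht⟩, rfl⟩
      exact ⟨Ψ (t, y), ht, hP (t, y)⟩
  have hbright : bright K u = (volume Y).toReal := by
    unfold bright hypVol hypProj
    rw [hproj]
    congr 1
    have h1 := Je.measurePreserving
    have h2 : Je '' Y = Je.symm ⁻¹' Y := by
      exact Je.toEquiv.image_eq_preimage_symm Y
    rw [h2]
    exact Je.symm.measurePreserving.measure_preimage hYm.nullMeasurableSet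
  -- fibres
  have hfib : ∀ y ∈ Y, ∃ a b : ℝ, a ≤ b ∧ {t : ℝ | Ψ (t, y) ∈ K} = Icc a b := by
    intro y hy
    have hcomp : IsCompact {t : ℝ | Ψ (t, y) ∈ K} := by
      have : {t : ℝ | Ψ (t, y) ∈ K} = Prod.fst '' ((Ψ ⁻¹' K) ∩ (Prod.snd ⁻¹' {y})) := by
        ext t
        constructor
        · intro ht; exact ⟨(t, y), ⟨ht, rfl⟩, rfl⟩
        · rintro ⟨p, ⟨hp, hp2⟩, rfl⟩
          have : p.2 = y := hp2
          simp only [mem_ofPred_eq, ← this]
          exact hp
      rw [this]
      exact (hcK.inter_right (isClosed_singleton.preimage continuous_snd)).image continuous_fst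
    have hconv : Convex ℝ {t : ℝ | Ψ (t, y) ∈ K} := by
      intro s hs' t ht α β hα hβ hαβ
      have := hc hs' ht hα hβ hαβ
      simp only [mem_ofPred_eq] at *
      convert this using 1
      simp only [hΨdef]
      rw [smul_add, smul_add, smul_smul, smul_smul, smul_eq_mul, smul_eq_mul, add_smul]
      have : ι y = α • ι y + β • ι y := by rw [← add_smul, hαβ, one_smul]
      nth_rewrite 1 [this]
      abel
    have hne : {t : ℝ | Ψ (t, y) ∈ K}.Nonempty := hy
    have := eq_Icc_of_connected_compact ⟨hne, hconv.isPreconnected⟩ hcomp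
    refine ⟨_, _, ?_, this⟩
    by_contra hlt
    rw [Icc_eq_empty hlt] at this
    exact hne.ne_empty this
  have hfib0 : ∀ y, y ∉ Y → {t : ℝ | Ψ (t, y) ∈ K} = ∅ := by
    intro y hy
    rw [eq_empty_iff_forall_notMem]
    intro t ht
    exact hy ⟨t, ht⟩
  have hKfin : volume K ≠ ⊤ := hK.measure_lt_top.ne
  have hind : ∫⁻ y, Y.indicator (fun _ => ENNReal.ofReal δ) y = ENNReal.ofReal δ * volume Y := by
    rw [lintegral_indicator hYm, setLIntegral_const]
  -- the sweep
  set M : Set (E (n + 1)) := K + segment ℝ 0 (δ • u) with hMdef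
  have hseg : segment ℝ (0 : E (n + 1)) (δ • u) = (fun s : ℝ => s • u) '' Icc 0 δ := by
    ext z
    rw [segment_eq_image]
    constructor
    · rintro ⟨s, ⟨hs0, hs1⟩, rfl⟩
      refine ⟨s * δ, ⟨by positivity, by nlinarith⟩, ?_⟩
      simp [mul_smul]
    · rintro ⟨s, ⟨hs0, hs1⟩, rfl⟩
      rcases hδ.eq_or_lt with h0 | h0
      · have hs2 : s = 0 := le_antisymm (by linarith) hs0
        exact ⟨0, ⟨le_refl _, zero_le_one⟩, by simp [hs2]⟩
      · refine ⟨s / δ, ⟨by positivity, by rw [div_le_one h0]; exact hs1⟩, ?_⟩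
        simp only [smul_zero, zero_add, smul_smul]
        rw [div_mul_cancel₀ _ h0.ne']
  have hsegc : IsCompact (segment ℝ (0 : E (n + 1)) (δ • u)) := by
    rw [hseg]
    exact isCompact_Icc.image (by fun_prop)
  have hMc : IsCompact M := hK.add hsegc
  have hMm : MeasurableSet M := hMc.isClosed.measurableSet
  have hmemM : ∀ t y, Ψ (t, y) ∈ M ↔ ∃ s ∈ Icc 0 δ, Ψ (t - s, y) ∈ K := by
    intro t y
    rw [hMdef, hseg, Set.mem_add]
    constructor
    · rintro ⟨k, hk, z, ⟨s, hs, rfl⟩, hz⟩
      refine ⟨s, hs, ?_⟩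
      have : k = Ψ (t - s, y) := by
        simp only at hz
        rw [eq_sub_of_add_eq hz]
        simp only [hΨdef]
        rw [sub_smul]
        abel
      rw [← this]
      exact hk
    · rintro ⟨s, hs, hk⟩
      refine ⟨_, hk, s • u, ⟨s, hs, rfl⟩, ?_⟩
      simp only [hΨdef]
      rw [sub_smul]
      abel
  have key : volume M = volume K + ENNReal.ofReal δ * volume Y := by
    rw [hvol K hKm, hvol M hMm, ← hind, ← lintegral_add_right _ (measurable_const.indicator hYm)]
    apply lintegral_congr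
    intro y
    by_cases hy : y ∈ Y
    · obtain ⟨a, b, hab, he⟩ := hfib y hy
      simp only [indicator_of_mem hy]
      rw [he, Real.volume_Icc, ← ENNReal.ofReal_add (by linarith) hδ]
      have hsub : {t : ℝ | Ψ (t, y) ∈ M} = Icc a (b + δ) := by
        ext t
        simp only [mem_ofPred_eq, hmemM]
        have hh : ∀ r, Ψ (r, y) ∈ K ↔ r ∈ Icc a b := by
          intro r
          rw [← he]
          rfl
        constructor
        · rintro ⟨s, hs, hk⟩
          rw [hh] at hk
          exact ⟨by linarith [hk.1, hs.1], by linarith [hk.2, hs.2]⟩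
        · rintro ⟨h1, h2⟩
          refine ⟨t - min t b, ⟨by linarith [min_le_left t b], ?_⟩, ?_⟩
          · rcases le_total t b with h3 | h3
            · rw [min_eq_left h3]; linarith
            · rw [min_eq_right h3]; linarith
          · rw [hh]
            have : t - (t - min t b) = min t b := by ring
            rw [this]
            exact ⟨le_min h1 hab, min_le_right _ _⟩
      rw [hsub, Real.volume_Icc]
      congr 1
      ring
    · simp only [indicator_of_notMem hy, add_zero]
      rw [hfib0 y hy]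
      have : {t : ℝ | Ψ (t, y) ∈ M} = ∅ := by
        rw [eq_empty_iff_forall_notMem]
        intro t ht
        simp only [mem_ofPred_eq, hmemM] at ht
        obtain ⟨s, _, hk⟩ := ht
        exact hy ⟨_, hk⟩
      rw [this]
  unfold V
  rw [key, hbright, ENNReal.toReal_add hKfin (ENNReal.mul_ne_top ENNReal.ofReal_ne_top hYfin),
    ENNReal.toReal_mul, ENNReal.toReal_ofReal hδ]

end Pool.Agent.Helper873.PBody
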