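import Mathlib
import Pool.Agent.Helper873.PBody.Defs
import Pool.Agent.Helper873.PBody.Sweep

set_option autoImplicit false

open MeasureTheory Metric Set Filter Topology
open scoped Pointwise

namespace Pool.Agent.Helper873.PBody

variable {n : ℕ}

theorem G_smul_zero (K : Set (E (n + 1))) : G K 0 = 0 := by
  unfold G
  rw [segment_same, Set.add_singleton]
  simp only [add_zero, Set.image_id', sub_self]

theorem G_smul_pos1 (K : Set (E (n + 1))) (hc : Convex ℝ K) (hK : IsCompact K) (u : E (n + 1)) (hu : ‖u‖ = 1)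
    (δ : ℝ) (hδ : 0 ≤ δ) : G K (δ • u) = δ * bright K u := by
  unfold G
  rw [sweep K hc hK u hu δ hδ]
  ring

theorem G_smul_unit (K : Set (E (n + 1))) (hc : Convex ℝ K) (hK : IsCompact K) (u : E (n + 1)) (hu : ‖u‖ = 1) :
    G K u = bright K u := by
  have h := G_smul_pos1 K hc hK u hu 1 zero_le_one
  rw [one_smul, one_mul] at h
  exact h

theorem G_smul_decomp (u : E (n + 1)) (hu : u ≠ 0) : ∃ v : E (n + 1), ‖v‖ = 1 ∧ u = ‖u‖ • v := by
  have hu' : ‖u‖ ≠ 0 := norm_ne_zero_iff.mpr hu
  refine ⟨‖u‖⁻¹ • u, ?_, ?_⟩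
  · rw [norm_smul, norm_inv, norm_norm, inv_mul_cancel₀ hu']
  · rw [smul_smul, mul_inv_cancel₀ hu', one_smul]

theorem G_smul_pos (K : Set (E (n + 1))) (hc : Convex ℝ K) (hK : IsCompact K) (c : ℝ) (h0 : 0 ≤ c)
    (u : E (n + 1)) : G K (c • u) = c * G K u := by
  by_cases hu : u = 0
  · rw [hu, smul_zero, G_smul_zero, mul_zero]
  · obtain ⟨v, hv, huv⟩ := G_smul_decomp u hu
    obtain ⟨r, hr⟩ : ∃ r, r = ‖u‖ := ⟨_, rfl⟩
    have hr0 : 0 ≤ r := by rw [hr]; exact norm_nonneg u
    rw [← hr] at huv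
    rw [huv, smul_smul, G_smul_pos1 K hc hK v hv _ (mul_nonneg h0 hr0), G_smul_pos1 K hc hK v hv _ hr0, mul_assoc]

theorem G_smul_neg (K : Set (E (n + 1))) (v : E (n + 1)) : G K (-v) = G K v := by
  have h1 : segment ℝ 0 (-v) = (fun x => -v + x) '' segment ℝ 0 v := by
    rw [segment_translate_image, add_zero, neg_add_cancel, segment_symm]
  have h2 : K + segment ℝ 0 (-v) = (fun x => v + x) ⁻¹' (K + segment ℝ 0 v) := by
    rw [h1]
    ext x
    simp only [Set.mem_add, Set.mem_image, Set.mem_preimage]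
    constructor
    · rintro ⟨a, ha, b, ⟨c, hc, rfl⟩, rfl⟩
      exact ⟨a, ha, c, hc, by abel⟩
    · rintro ⟨a, ha, c, hc, hac⟩
      refine ⟨a, ha, -v + c, ⟨c, hc, rfl⟩, ?_⟩
      have : x = -v + (a + c) := by rw [hac]; abel
      rw [this]
      abel
  unfold G V
  rw [h2, measure_preimage_add]

theorem G_smul_bright (K L : Set (E (n + 1))) (hL : IsCompact L) (h : K ⊆ L) (u : E (n + 1)) :
    bright K u ≤ bright L u := by
  unfold bright hypVol hypProj
  apply ENNReal.toReal_mono
  · exact ((hL.image ((hyp u).orthogonalProjectionOnto).continuous).measure_lt_top).ne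
  · exact measure_mono (Set.image_mono h)

-- TARGET (prove this)
theorem G_smul (K : Set (E (n + 1))) (hc : Convex ℝ K) (hK : IsCompact K) (c : ℝ) (u : E (n + 1)) :
    G K (c • u) = |c| * G K u := by
  rcases le_total 0 c with h | h
  · rw [abs_of_nonneg h]
    exact G_smul_pos K hc hK c h u
  · rw [abs_of_nonpos h]
    have h1 := G_smul_pos K hc hK (-c) (by linarith) u
    rw [neg_smul, G_smul_neg] at h1
    exact h1

-- TARGET (prove this)
theorem G_unit (K : Set (E (n + 1))) (hc : Convex ℝ K) (hK : IsCompact K) (u : E (n + 1)) (hu : ‖u‖ = 1) :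
    G K u = bright K u := by
  exact G_smul_unit K hc hK u hu

-- TARGET (prove this)
theorem G_mono (K L : Set (E (n + 1))) (hc : Convex ℝ K) (hK : IsCompact K) (hc' : Convex ℝ L)
    (hL : IsCompact L) (h : K ⊆ L) (u : E (n + 1)) : G K u ≤ G L u := by
  by_cases hu : u = 0
  · rw [hu, G_smul_zero, G_smul_zero]
  · obtain ⟨v, hv, huv⟩ := G_smul_decomp u hu
    rw [huv, G_smul_pos1 K hc hK v hv _ (norm_nonneg u), G_smul_pos1 L hc' hL v hv _ (norm_nonneg u)]
    exact mul_le_mul_of_nonneg_left (G_smul_bright K L hL h v) (norm_nonneg u)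

-- TARGET (prove this)
theorem G_add (K : Set (E (n + 1))) (hc : Convex ℝ K) (hK : IsCompact K) (u v : E (n + 1)) :
    G K (u + v) ≤ G K u + G K v := by
  have hcs : ∀ w : E (n + 1), IsCompact (segment ℝ 0 w) := by
    intro w
    rw [segment_eq_image]
    exact isCompact_Icc.image (by fun_prop)
  have hvs : ∀ w : E (n + 1), Convex ℝ (segment ℝ 0 w) := fun w => convex_segment _ _
  have key : ∀ t : ℝ, 0 < t → t ≤ 1 → G K (u + v) ≤
      G K u + G K v + t * (G (K + segment ℝ 0 v) u - G K u) := by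
    intro t ht _
    have habs : |t| = t := abs_of_pos ht
    have h1 : t * G K (u + v) = V (K + segment ℝ 0 (t • (u + v))) - V K := by
      have := G_smul K hc hK t (u + v)
      rw [habs] at this
      rw [← this, G]
    have hsub : K + segment ℝ 0 (t • (u + v)) ⊆
        K + segment ℝ 0 (t • u) + segment ℝ 0 (t • v) := by
      rw [add_assoc]
      refine add_subset_add_left ?_
      intro x hx
      rw [segment_eq_image] at hx
      obtain ⟨s, hs, rfl⟩ := hx
      rw [segment_eq_image, segment_eq_image]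
      refine Set.mem_add.2 ⟨_, ⟨s, hs, rfl⟩, _, ⟨s, hs, rfl⟩, ?_⟩
      simp only [smul_zero, zero_add, smul_add]
    have hfin : volume (K + segment ℝ 0 (t • u) + segment ℝ 0 (t • v)) ≠ ⊤ :=
      ((hK.add (hcs _)).add (hcs _)).measure_lt_top.ne
    have h2 : V (K + segment ℝ 0 (t • (u + v))) ≤
        V (K + segment ℝ 0 (t • u) + segment ℝ 0 (t • v)) :=
      ENNReal.toReal_mono hfin (measure_mono hsub)
    have h3 : t * G K u = V (K + segment ℝ 0 (t • u)) - V K := by
      have := G_smul K hc hK t u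
      rw [habs] at this
      rw [← this, G]
    have h4 : t * G (K + segment ℝ 0 (t • u)) v =
        V (K + segment ℝ 0 (t • u) + segment ℝ 0 (t • v)) - V (K + segment ℝ 0 (t • u)) := by
      have := G_smul (K + segment ℝ 0 (t • u)) (hc.add (hvs _)) (hK.add (hcs _)) t v
      rw [habs] at this
      rw [← this, G]
    have h5 : t * G (K + segment ℝ 0 v) u =
        V (K + segment ℝ 0 v + segment ℝ 0 (t • u)) - V (K + segment ℝ 0 v) := by
      have := G_smul (K + segment ℝ 0 v) (hc.add (hvs _)) (hK.add (hcs _)) t u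
      rw [habs] at this
      rw [← this, G]
    have h6 : G (K + segment ℝ 0 (t • u)) v =
        V (K + segment ℝ 0 (t • u) + segment ℝ 0 v) - V (K + segment ℝ 0 (t • u)) := rfl
    have h7 : K + segment ℝ 0 (t • u) + segment ℝ 0 v = K + segment ℝ 0 v + segment ℝ 0 (t • u) :=
      add_right_comm _ _ _
    have h8 : G K v = V (K + segment ℝ 0 v) - V K := rfl
    rw [h7] at h6
    have h9 : G (K + segment ℝ 0 (t • u)) v = G K v + t * (G (K + segment ℝ 0 v) u - G K u) := by
      rw [mul_sub, h5, h3, h6, h8]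
      ring
    have h10 : t * G K (u + v) ≤ t * (G K u + G K v + t * (G (K + segment ℝ 0 v) u - G K u)) := by
      have e : t * (G K u + G K v + t * (G (K + segment ℝ 0 v) u - G K u)) =
          t * G K u + t * G (K + segment ℝ 0 (t • u)) v := by
        rw [h9]; ring
      rw [e, h1, h3, h4]
      linarith
    exact le_of_mul_le_mul_left h10 ht
  refine le_of_forall_pos_le_add fun ε hε => ?_
  set C : ℝ := G (K + segment ℝ 0 v) u - G K u with hC
  have hpos : 0 < |C| + 1 := by positivity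
  have ht0 : 0 < min 1 (ε / (|C| + 1)) := lt_min one_pos (by positivity)
  have h := key (min 1 (ε / (|C| + 1))) ht0 (min_le_left _ _)
  have h2 : min 1 (ε / (|C| + 1)) * C ≤ ε := by
    calc min 1 (ε / (|C| + 1)) * C ≤ min 1 (ε / (|C| + 1)) * |C| :=
          mul_le_mul_of_nonneg_left (le_abs_self _) ht0.le
      _ ≤ (ε / (|C| + 1)) * |C| := mul_le_mul_of_nonneg_right (min_le_right _ _) (abs_nonneg _)
      _ ≤ (ε / (|C| + 1)) * (|C| + 1) := by
          refine mul_le_mul_of_nonneg_left (by linarith) (by positivity)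
      _ = ε := div_mul_cancel₀ _ hpos.ne'
  linarith

-- TARGET (prove this)
theorem G_map (K : Set (E (n + 1))) (A : E (n + 1) ≃ₗ[ℝ] E (n + 1)) (u : E (n + 1)) :
    G (A '' K) (A u) = |LinearMap.det (A : E (n + 1) →ₗ[ℝ] E (n + 1))| * G K u := by
  have hV : ∀ S : Set (E (n + 1)), V (A '' S) =
      |LinearMap.det (A : E (n + 1) →ₗ[ℝ] E (n + 1))| * V S := by
    intro S
    unfold V
    have h := Measure.addHaar_image_linearMap (volume : Measure (E (n + 1)))
      (A : E (n + 1) →ₗ[ℝ] E (n + 1)) S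
    have h' : (volume (A '' S)) = ENNReal.ofReal |LinearMap.det (A : E (n + 1) →ₗ[ℝ] E (n + 1))| *
        volume S := h
    rw [h', ENNReal.toReal_mul, ENNReal.toReal_ofReal (abs_nonneg _)]
  have hseg : A '' (segment ℝ 0 u) = segment ℝ 0 (A u) := by
    have h := image_segment ℝ ((A : E (n + 1) →ₗ[ℝ] E (n + 1)).toAffineMap) 0 u
    simpa using h
  have himg : A '' K + segment ℝ 0 (A u) = A '' (K + segment ℝ 0 u) := by
    rw [← hseg, Set.image_add]
  unfold G
  rw [himg, hV, hV]
  ring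

-- TARGET (prove this)
theorem G_translate (K : Set (E (n + 1))) (x u : E (n + 1)) :
    G ((fun y => x + y) '' K) u = G K u := by
  have hV : ∀ S : Set (E (n + 1)), V ((fun y => x + y) '' S) = V S := by
    intro S
    unfold V
    rw [Set.image_add_left, measure_preimage_add]
  have himg : (fun y => x + y) '' K + segment ℝ 0 u = (fun y => x + y) '' (K + segment ℝ 0 u) := by
    rw [← Set.singleton_add, ← Set.singleton_add, add_assoc]
  unfold G
  rw [himg, hV, hV]

-- TARGET (prove this)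
theorem body_comp {p : E n → ℝ} (A B : E n ≃ₗ[ℝ] E n) (hAB : ∀ x y, inner ℝ (B x) (A y) = inner ℝ x y) :
    body (fun u => p (A u)) = B.symm '' body p := by
  ext x
  constructor
  · intro hx
    refine ⟨B x, ?_, B.symm_apply_apply x⟩
    intro v
    have h1 : inner ℝ x (A.symm v) ≤ p (A (A.symm v)) := hx (A.symm v)
    rw [← hAB, A.apply_symm_apply] at h1
    exact h1
  · rintro ⟨y, hy, rfl⟩
    intro u
    rw [← hAB, B.apply_symm_apply]
    exact hy (A u)

-- TARGET (prove this)
/-- the inverse adjoint -/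
theorem exists_adj (A : E n ≃ₗ[ℝ] E n) : ∃ B : E n ≃ₗ[ℝ] E n,
    (∀ x y, inner ℝ (B x) (A y) = inner ℝ x y) ∧
    |LinearMap.det (B : E n →ₗ[ℝ] E n)| = |LinearMap.det (A : E n →ₗ[ℝ] E n)|⁻¹ := by
  set f : E n →ₗ[ℝ] E n := LinearMap.adjoint (A.symm : E n →ₗ[ℝ] E n) with hf
  set g : E n →ₗ[ℝ] E n := LinearMap.adjoint (A : E n →ₗ[ℝ] E n) with hg
  have hfg : f ∘ₗ g = LinearMap.id := by
    ext1 x
    refine ext_inner_right ℝ fun y => ?_
    rw [LinearMap.comp_apply, hf, hg, LinearMap.adjoint_inner_left, LinearMap.adjoint_inner_left]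
    simp
  have hgf : g ∘ₗ f = LinearMap.id := by
    ext1 x
    refine ext_inner_right ℝ fun y => ?_
    rw [LinearMap.comp_apply, hf, hg, LinearMap.adjoint_inner_left, LinearMap.adjoint_inner_left]
    simp
  refine ⟨LinearEquiv.ofLinearMap f g hfg hgf, ?_, ?_⟩
  · intro x y
    show inner ℝ (f x) (A y) = inner ℝ x y
    rw [hf, LinearMap.adjoint_inner_left]
    simp
  · have hdet : LinearMap.det f = LinearMap.det (A.symm : E n →ₗ[ℝ] E n) := by
      have h1 := LinearMap.toMatrix_adjoint (EuclideanSpace.basisFun (Fin n) ℝ)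
        (EuclideanSpace.basisFun (Fin n) ℝ) (A.symm : E n →ₗ[ℝ] E n)
      rw [← hf] at h1
      rw [← LinearMap.det_toMatrix (EuclideanSpace.basisFun (Fin n) ℝ).toBasis f, h1,
        Matrix.det_conjTranspose, LinearMap.det_toMatrix]
      simp
    have h2 : ((LinearEquiv.ofLinearMap f g hfg hgf : E n ≃ₗ[ℝ] E n) : E n →ₗ[ℝ] E n) = f := by
      ext1 x
      rfl
    rw [h2, hdet]
    have h3 : LinearMap.det (A.symm : E n →ₗ[ℝ] E n) * LinearMap.det (A : E n →ₗ[ℝ] E n) = 1 := by
      rw [← LinearMap.det_comp]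
      simp
    rw [← abs_inv]
    congr 1
    exact eq_inv_of_mul_eq_one_left h3

-- TARGET (prove this)
theorem isCompact_B : IsCompact (closedBall (0 : E (n + 1)) 1) := isCompact_closedBall 0 1

theorem convex_B : Convex ℝ (closedBall (0 : E (n + 1)) 1) := convex_closedBall 0 1

theorem abs_det_isom (R : E (n + 1) ≃ₗᵢ[ℝ] E (n + 1)) :
    |LinearMap.det (R.toLinearEquiv : E (n + 1) →ₗ[ℝ] E (n + 1))| = 1 := by
  have h1 := Measure.addHaar_image_linearMap (volume : Measure (E (n + 1)))
    (R.toLinearEquiv : E (n + 1) →ₗ[ℝ] E (n + 1)) (closedBall 0 1)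
  have h2 : ((R.toLinearEquiv : E (n + 1) →ₗ[ℝ] E (n + 1)) : E (n + 1) → E (n + 1)) ''
      closedBall 0 1 = closedBall 0 1 := by
    have := R.image_closedBall 0 1
    rw [map_zero] at this
    exact this
  rw [h2] at h1
  have h3 : volume (closedBall (0 : E (n + 1)) 1) ≠ 0 :=
    (measure_closedBall_pos volume 0 one_pos).ne'
  have h4 : volume (closedBall (0 : E (n + 1)) 1) ≠ ⊤ := measure_closedBall_lt_top.ne
  have h5 := congrArg ENNReal.toReal h1
  rw [ENNReal.toReal_mul, ENNReal.toReal_ofReal (abs_nonneg _)] at h5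
  have h6 : 0 < (volume (closedBall (0 : E (n + 1)) 1)).toReal := ENNReal.toReal_pos h3 h4
  have h7 : (volume (closedBall (0 : E (n + 1)) 1)).toReal * (|LinearMap.det (R.toLinearEquiv : E (n + 1) →ₗ[ℝ] E (n + 1))| - 1) = 0 := by
    linarith
  rcases mul_eq_zero.1 h7 with h | h
  · exact absurd h h6.ne'
  · linarith

theorem G_ball_rot (u v : E (n + 1)) (h : ‖u‖ = ‖v‖) :
    G (closedBall 0 1) u = G (closedBall 0 1) v := by
  let R : E (n + 1) ≃ₗᵢ[ℝ] E (n + 1) := (ℝ ∙ (u - v))ᗮ.reflection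
  have hR : R u = v := Submodule.reflection_sub h
  have h1 := G_map (closedBall (0 : E (n + 1)) 1) R.toLinearEquiv u
  rw [abs_det_isom, one_mul] at h1
  have h2 : (R.toLinearEquiv : E (n + 1) → E (n + 1)) '' closedBall 0 1 = closedBall 0 1 := by
    have := R.image_closedBall 0 1
    rw [map_zero] at this
    exact this
  have h3 : R.toLinearEquiv u = v := hR
  rw [h2, h3] at h1
  exact h1.symm

theorem bright_ball_pos (e : E (n + 1)) : 0 < bright (closedBall 0 1) e := by
  unfold bright hypVol hypProj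
  apply ENNReal.toReal_pos
  · have h1 : ball (0 : hyp e) 1 ⊆ (hyp e).orthogonalProjectionOnto '' closedBall 0 1 := by
      intro y hy
      refine ⟨(y : E (n + 1)), ?_, ?_⟩
      · rw [mem_closedBall_zero_iff]
        rw [mem_ball_zero_iff] at hy
        exact le_of_lt hy
      · simp
    have h2 : 0 < volume (ball (0 : hyp e) 1) := measure_ball_pos volume 0 one_pos
    exact (lt_of_lt_of_le h2 (measure_mono h1)).ne'
  · have h1 : IsCompact ((hyp e).orthogonalProjectionOnto '' closedBall (0 : E (n + 1)) 1) :=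
      isCompact_B.image (hyp e).orthogonalProjectionOnto.continuous
    exact h1.measure_lt_top.ne

theorem G_ball : ∃ c : ℝ, 0 < c ∧ ∀ u : E (n + 1), G (closedBall 0 1) u = c * ‖u‖ := by
  let e : E (n + 1) := EuclideanSpace.single 0 1
  have he : ‖e‖ = 1 := by simp [e]
  refine ⟨G (closedBall 0 1) e, ?_, ?_⟩
  · rw [G_unit _ convex_B isCompact_B e he]
    exact bright_ball_pos e
  · intro u
    have h1 : ‖(‖u‖ • e)‖ = ‖u‖ := by
      rw [norm_smul, he, mul_one, norm_norm]
    rw [G_ball_rot u (‖u‖ • e) h1.symm, G_smul _ convex_B isCompact_B, abs_norm, mul_comm]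

theorem G_cball (x : E (n + 1)) (r : ℝ) (hr : 0 < r) :
    ∃ c : ℝ, 0 < c ∧ ∀ u : E (n + 1), G (closedBall x r) u = c * ‖u‖ := by
  obtain ⟨c, hc, hG⟩ := G_ball (n := n)
  let A : E (n + 1) ≃ₗ[ℝ] E (n + 1) := LinearEquiv.smulOfNeZero ℝ (E (n + 1)) r hr.ne'
  have hA : ∀ y, A y = r • y := fun y => rfl
  have hdet : 0 < |LinearMap.det (A : E (n + 1) →ₗ[ℝ] E (n + 1))| :=
    abs_pos.2 (LinearEquiv.isUnit_det' A).ne_zero
  have hball : closedBall x r = (fun y => x + y) '' (A '' closedBall 0 1) := by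
    have h1 : (A : E (n + 1) → E (n + 1)) '' closedBall 0 1 = closedBall 0 r := by
      have h2 := smul_closedBall r (0 : E (n + 1)) (zero_le_one)
      rw [smul_zero, Real.norm_of_nonneg hr.le, mul_one] at h2
      rw [← h2]
      rfl
    rw [h1]
    ext y
    simp only [mem_closedBall, mem_image, dist_zero_right]
    constructor
    · intro h
      refine ⟨y - x, ?_, by abel⟩
      rwa [← dist_eq_norm]
    · rintro ⟨z, hz, rfl⟩
      simpa [dist_eq_norm] using hz
  refine ⟨|LinearMap.det (A : E (n + 1) →ₗ[ℝ] E (n + 1))| * (c * r⁻¹), by positivity, ?_⟩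
  intro u
  rw [hball, G_translate]
  have h1 := G_map (closedBall (0 : E (n + 1)) 1) A (r⁻¹ • u)
  rw [hA (r⁻¹ • u), smul_inv_smul₀ hr.ne'] at h1
  rw [h1, hG, norm_smul, Real.norm_of_nonneg (inv_nonneg.2 hr.le)]
  ring

-- TARGET (prove this)
/-- the function `G K` is a support function for every convex body (centered or not) -/
theorem G_good (K : Set (E (n + 1))) (hc : Convex ℝ K) (hK : IsCompact K) (hi : (interior K).Nonempty) :
    Good (G K) := by
  refine ⟨G_add K hc hK, G_smul K hc hK, ?_⟩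
  obtain ⟨x, hx⟩ := hi
  obtain ⟨ε, hε, hball⟩ := Metric.isOpen_iff.1 isOpen_interior x hx
  have h1 : closedBall x (ε / 2) ⊆ K :=
    (closedBall_subset_ball (by linarith)).trans (hball.trans interior_subset)
  obtain ⟨R, hR, h2⟩ := hK.isBounded.subset_closedBall_lt 0 x
  obtain ⟨c1, hc1, hG1⟩ := G_cball x (ε / 2) (by positivity)
  obtain ⟨c2, hc2, hG2⟩ := G_cball x R hR
  refine ⟨c1, c2, hc1, fun u => ⟨?_, ?_⟩⟩
  · rw [← hG1]
    exact G_mono _ _ (convex_closedBall _ _) (isCompact_closedBall _ _) hc hK h1 u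
  · rw [← hG2]
    exact G_mono _ _ hc hK (convex_closedBall _ _) (isCompact_closedBall _ _) h2 u

end Pool.Agent.Helper873.PBody
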