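import Mathlib
import Pool.Agent.Helper873.PBody.Defs

set_option autoImplicit false

open MeasureTheory Metric Set Filter Topology
open scoped Pointwise

namespace Pool.Agent.Helper873.PBody

variable {n : ℕ}

theorem P05aux_zero {p : E n → ℝ} (hp : Good p) : p 0 = 0 := by
  have h := hp.smul 0 0
  rw [zero_smul, abs_zero, zero_mul] at h
  exact h

theorem P05aux_nonneg {p : E n → ℝ} (hp : Good p) (u : E n) : 0 ≤ p u := by
  obtain ⟨r, R, hr, h⟩ := hp.bd
  exact (mul_nonneg hr.le (norm_nonneg u)).trans (h u).1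

theorem P05aux_sub_ball {p : E n → ℝ} {R : ℝ} (hR : 0 ≤ R) (h : ∀ u, p u ≤ R * ‖u‖) :
    body p ⊆ closedBall 0 R := by
  intro x hx
  rw [mem_closedBall_zero_iff]
  by_contra hcon
  push Not at hcon
  have h1 : inner ℝ x x ≤ p x := hx x
  rw [real_inner_self_eq_norm_sq] at h1
  have h2 := h x
  nlinarith

theorem P05aux_ball {p : E n → ℝ} {r : ℝ} (h : ∀ u, r * ‖u‖ ≤ p u) :
    closedBall 0 r ⊆ body p := by
  intro x hx u
  rw [mem_closedBall_zero_iff] at hx
  exact (real_inner_le_norm x u).trans ((mul_le_mul_of_nonneg_right hx (norm_nonneg u)).trans (h u))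

-- TARGET (prove this)
theorem body_convex (p : E n → ℝ) : Convex ℝ (body p) := by
  intro x hx y hy a b ha hb hab u
  rw [inner_add_left, real_inner_smul_left, real_inner_smul_left]
  have h1 := mul_le_mul_of_nonneg_left (hx u) ha
  have h2 := mul_le_mul_of_nonneg_left (hy u) hb
  calc a * inner ℝ x u + b * inner ℝ y u ≤ a * p u + b * p u := add_le_add h1 h2
    _ = p u := by rw [← add_mul, hab, one_mul]

-- TARGET (prove this)
theorem body_compact {p : E n → ℝ} (hp : Good p) : IsCompact (body p) := by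
  obtain ⟨r, R, hr, h⟩ := hp.bd
  have hcl : IsClosed (body p) := by
    have h1 : body p = ⋂ u, {x | inner ℝ x u ≤ p u} := by
      ext x
      rw [mem_iInter]
      rfl
    rw [h1]
    exact isClosed_iInter (fun u => isClosed_le (continuous_id.inner continuous_const)
      continuous_const)
  have hsub : body p ⊆ closedBall 0 (max R 0) := by
    refine P05aux_sub_ball (le_max_right _ _) (fun u => (h u).2.trans ?_)
    exact mul_le_mul_of_nonneg_right (le_max_left _ _) (norm_nonneg u)
  exact Metric.isCompact_of_isClosed_isBounded hcl (isBounded_closedBall.subset hsub)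

-- TARGET (prove this)
theorem body_ball {p : E n → ℝ} {r : ℝ} (h : ∀ u, r * ‖u‖ ≤ p u) : closedBall 0 r ⊆ body p := by
  exact P05aux_ball h

-- TARGET (prove this)
theorem body_sub_ball {p : E n → ℝ} {R : ℝ} (hR : 0 ≤ R) (h : ∀ u, p u ≤ R * ‖u‖) :
    body p ⊆ closedBall 0 R := by
  exact P05aux_sub_ball hR h

-- TARGET (prove this)
theorem body_interior {p : E n → ℝ} (hp : Good p) : (interior (body p)).Nonempty := by
  obtain ⟨r, R, hr, h⟩ := hp.bd
  refine ⟨0, ?_⟩
  rw [mem_interior]
  exact ⟨ball 0 r, ball_subset_closedBall.trans (P05aux_ball (fun u => (h u).1)), isOpen_ball,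
    mem_ball_self hr⟩

-- TARGET (prove this)
/-- the support function is attained -/
theorem support {p : E n → ℝ} (hp : Good p) (u : E n) : ∃ x ∈ body p, inner ℝ x u = p u := by
  have H : ∀ c : ℝ, c • u = 0 → c • p u = 0 := by
    intro c hc
    rcases smul_eq_zero.1 hc with h | h
    · rw [h, zero_smul]
    · rw [h, P05aux_zero hp, smul_zero]
  obtain ⟨g, hg1, hg2⟩ := exists_extension_of_le_sublinear
    (LinearPMap.mkSpanSingleton' u (p u) H) p
    (fun c hc x => by rw [hp.smul, abs_of_pos hc]) hp.add (by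
      rintro ⟨x, hx⟩
      have hx' : x ∈ (ℝ ∙ u) := hx
      obtain ⟨c, rfl⟩ := Submodule.mem_span_singleton.1 hx'
      rw [LinearPMap.mkSpanSingleton'_apply]
      show c • p u ≤ p (c • u)
      rw [hp.smul, smul_eq_mul]
      exact mul_le_mul_of_nonneg_right (le_abs_self c) (P05aux_nonneg hp u))
  refine ⟨(InnerProductSpace.toDual ℝ (E n)).symm (LinearMap.toContinuousLinearMap g), ?_, ?_⟩
  · intro v
    rw [InnerProductSpace.toDual_symm_apply]
    exact hg2 v
  · rw [InnerProductSpace.toDual_symm_apply]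
    have h1 := hg1 ⟨u, Submodule.mem_span_singleton_self u⟩
    rw [LinearPMap.mkSpanSingleton'_apply_self] at h1
    exact h1

-- TARGET (prove this)
/-- a convex body is determined by its support function -/
theorem body_of_lub {K : Set (E (n + 1))} (hc : Convex ℝ K) (hK : IsCompact K) (p : E (n + 1) → ℝ)
    (hp : Good p) (h : ∀ u, ‖u‖ = 1 → IsLUB ((fun x => inner ℝ x u) '' K) (p u)) : K = body p := by
  apply Set.Subset.antisymm
  · intro x hx u
    by_cases hu : u = 0
    · rw [hu, inner_zero_right, P05aux_zero hp]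
    · have hn : 0 < ‖u‖ := norm_pos_iff.2 hu
      have h1 : ‖(‖u‖⁻¹ • u)‖ = 1 := by
        rw [norm_smul, norm_inv, norm_norm, inv_mul_cancel₀ hn.ne']
      have h2 : inner ℝ x (‖u‖⁻¹ • u) ≤ p (‖u‖⁻¹ • u) := (h _ h1).1 ⟨x, hx, rfl⟩
      rw [real_inner_smul_right, hp.smul, abs_of_pos (inv_pos.2 hn)] at h2
      exact le_of_mul_le_mul_left h2 (inv_pos.2 hn)
  · intro x hx
    by_contra hcon
    obtain ⟨f, s, hf1, hf2⟩ := geometric_hahn_banach_closed_point hc hK.isClosed hcon
    obtain ⟨v, hv⟩ : ∃ v, v = (InnerProductSpace.toDual ℝ (E (n + 1))).symm f := ⟨_, rfl⟩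
    have hvf : ∀ y, inner ℝ v y = f y := by
      intro y
      rw [hv, InnerProductSpace.toDual_symm_apply]
    have hKne : K.Nonempty := by
      by_contra hne
      rw [Set.not_nonempty_iff_eq_empty] at hne
      have he : ‖(EuclideanSpace.single (0 : Fin (n + 1)) (1 : ℝ))‖ = 1 := by
        rw [EuclideanSpace.norm_single, norm_one]
      have h1 := h _ he
      rw [hne, Set.image_empty] at h1
      have h2 := h1.2 (show p (EuclideanSpace.single (0 : Fin (n + 1)) (1 : ℝ)) - 1 ∈
        upperBounds (∅ : Set ℝ) from by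
          intro y hy
          exact absurd hy (Set.notMem_empty y))
      linarith
    have hv0 : v ≠ 0 := by
      intro hv0
      obtain ⟨y, hy⟩ := hKne
      have h1 := hf1 y hy
      rw [← hvf, hv0, inner_zero_left] at h1
      rw [← hvf, hv0, inner_zero_left] at hf2
      linarith
    have hn : 0 < ‖v‖ := norm_pos_iff.2 hv0
    have hw : ‖(‖v‖⁻¹ • v)‖ = 1 := by
      rw [norm_smul, norm_inv, norm_norm, inv_mul_cancel₀ hn.ne']
    have hlub := h _ hw
    have h1 : p (‖v‖⁻¹ • v) ≤ ‖v‖⁻¹ * s := by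
      refine hlub.2 ?_
      rintro _ ⟨y, hy, rfl⟩
      show inner ℝ y (‖v‖⁻¹ • v) ≤ ‖v‖⁻¹ * s
      rw [real_inner_smul_right, real_inner_comm, hvf]
      exact mul_le_mul_of_nonneg_left (hf1 y hy).le (inv_pos.2 hn).le
    have h2 : inner ℝ x (‖v‖⁻¹ • v) ≤ p (‖v‖⁻¹ • v) := hx _
    rw [real_inner_smul_right, real_inner_comm, hvf] at h2
    have h3 : ‖v‖⁻¹ * s < ‖v‖⁻¹ * f x := mul_lt_mul_of_pos_left hf2 (inv_pos.2 hn)
    linarith

end Pool.Agent.Helper873.PBody
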