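import Mathlib
import Pool.Agent.Helper873.PBody.Defs
import Pool.Agent.Helper873.PBody.GA
import Pool.Agent.Helper873.PBody.GB

set_option autoImplicit false

open MeasureTheory Metric Set Filter Topology
open scoped Pointwise

namespace Pool.Agent.Helper873.PBody

variable {n : ℕ}

-- TARGET (prove this)
theorem Pm_good {p : E (n + 1) → ℝ} (hp : Good p) : Good (Pm p) :=
  G_good (body p) (body_convex p) (body_compact hp) (body_interior hp)

-- TARGET (prove this)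
theorem Pm_mono {p q : E (n + 1) → ℝ} (hp : Good p) (hq : Good q) (h : ∀ u, p u ≤ q u) (u : E (n + 1)) :
    Pm p u ≤ Pm q u := by
  unfold Pm
  refine G_mono (body p) (body q) (body_convex p) (body_compact hp) (body_convex q)
    (body_compact hq) ?_ u
  intro x hx v
  exact (hx v).trans (h v)

-- TARGET (prove this)
theorem Pm_const_mul {p : E (n + 1) → ℝ} (hp : Good p) {c : ℝ} (hc : 0 < c) (u : E (n + 1)) :
    Pm (fun v => c * p v) u = c ^ n * Pm p u := by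
  obtain ⟨A, hA⟩ : ∃ A : E (n + 1) ≃ₗ[ℝ] E (n + 1), ∀ x, A x = c • x :=
    ⟨LinearEquiv.smulOfNeZero ℝ (E (n + 1)) c hc.ne', fun x => rfl⟩
  have hAdet : LinearMap.det (A : E (n + 1) →ₗ[ℝ] E (n + 1)) = c ^ (n + 1) := by
    have h1 : (A : E (n + 1) →ₗ[ℝ] E (n + 1)) = c • LinearMap.id := by
      refine LinearMap.ext fun x => ?_
      show A x = c • x
      exact hA x
    rw [h1, LinearMap.det_smul, LinearMap.det_id, mul_one, finrank_euclideanSpace_fin]
  have hb : body (fun v => c * p v) = A '' (body p) := by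
    ext x
    constructor
    · intro hx
      refine ⟨c⁻¹ • x, ?_, ?_⟩
      · intro v
        have h1 : inner ℝ x v ≤ c * p v := hx v
        rw [real_inner_smul_left]
        rw [inv_mul_le_iff₀ hc]
        exact h1
      · rw [hA, smul_smul, mul_inv_cancel₀ hc.ne', one_smul]
    · rintro ⟨y, hy, rfl⟩
      intro v
      have h1 : inner ℝ y v ≤ p v := hy v
      rw [hA, real_inner_smul_left]
      exact mul_le_mul_of_nonneg_left h1 hc.le
  have h2 := G_map (body p) A (c⁻¹ • u)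
  rw [hA (c⁻¹ • u), smul_smul, mul_inv_cancel₀ hc.ne', one_smul, hAdet,
    G_smul (body p) (body_convex p) (body_compact hp) c⁻¹ u, ← hb] at h2
  unfold Pm
  rw [h2, abs_of_pos (pow_pos hc _), abs_of_pos (inv_pos.2 hc), pow_succ]
  field_simp

-- TARGET (prove this)
theorem Pm_norm : ∃ c : ℝ, 0 < c ∧ ∀ u : E (n + 1), Pm (fun v => ‖v‖) u = c * ‖u‖ := by
  obtain ⟨c, hc, h⟩ := G_ball (n := n)
  refine ⟨c, hc, fun u => ?_⟩
  have hb : body (fun v : E (n + 1) => ‖v‖) = closedBall 0 1 := by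
    ext x
    constructor
    · intro hx
      have h1 : inner ℝ x x ≤ ‖x‖ := hx x
      rw [real_inner_self_eq_norm_sq] at h1
      rw [mem_closedBall_zero_iff]
      by_contra h2
      push Not at h2
      nlinarith
    · intro hx v
      rw [mem_closedBall_zero_iff] at hx
      have h1 := real_inner_le_norm x v
      have h2 : ‖x‖ * ‖v‖ ≤ 1 * ‖v‖ := mul_le_mul_of_nonneg_right hx (norm_nonneg v)
      show inner ℝ x v ≤ ‖v‖
      linarith
  unfold Pm
  rw [hb]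
  exact h u

theorem Pm_comp_aux (A B : E (n + 1) ≃ₗ[ℝ] E (n + 1))
    (hAB : ∀ x y, inner ℝ (B x) (A y) = inner ℝ x y) (p : E (n + 1) → ℝ) (u : E (n + 1)) :
    Pm (fun v => p (A v)) u = |LinearMap.det (B : E (n + 1) →ₗ[ℝ] E (n + 1))|⁻¹ * Pm p (B u) := by
  unfold Pm
  rw [body_comp A B hAB]
  have h := G_map (body p) B.symm (B u)
  rw [LinearEquiv.symm_apply_apply] at h
  rw [h, LinearEquiv.det_coe_symm, abs_inv]

-- TARGET (prove this)
theorem Pm_comp (A : E (n + 1) ≃ₗ[ℝ] E (n + 1)) : ∃ D : E (n + 1) ≃ₗ[ℝ] E (n + 1),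
    ∀ p : E (n + 1) → ℝ, Good p → Pm (fun v => p (A v)) = fun u => Pm p (D u) := by
  obtain ⟨B, hAB, -⟩ := exists_adj A
  have hc : |LinearMap.det (B : E (n + 1) →ₗ[ℝ] E (n + 1))|⁻¹ ≠ 0 := by
    apply inv_ne_zero
    rw [abs_ne_zero]
    exact (LinearEquiv.isUnit_det' B).ne_zero
  refine ⟨B ≪≫ₗ LinearEquiv.smulOfNeZero ℝ _ _ hc, fun p hp => ?_⟩
  funext u
  rw [Pm_comp_aux A B hAB]
  simp only [LinearEquiv.trans_apply, LinearEquiv.smulOfNeZero_apply]
  rw [(Pm_good hp).smul, abs_inv, abs_abs]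

-- TARGET (prove this)
theorem Pm_comp' (hn : 1 ≤ n) (D : E (n + 1) ≃ₗ[ℝ] E (n + 1)) : ∃ A : E (n + 1) ≃ₗ[ℝ] E (n + 1),
    ∀ p : E (n + 1) → ℝ, Good p → Pm (fun v => p (A v)) = fun u => Pm p (D u) := by
  obtain ⟨B0, hB0, -⟩ := exists_adj D
  have hdet : 0 < |LinearMap.det (D : E (n + 1) →ₗ[ℝ] E (n + 1))| := by
    rw [abs_pos]
    exact (LinearEquiv.isUnit_det' D).ne_zero
  obtain ⟨l, hl0, hl⟩ : ∃ l : ℝ, 0 < l ∧ l ^ n = |LinearMap.det (D : E (n + 1) →ₗ[ℝ] E (n + 1))| := by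
    refine ⟨|LinearMap.det (D : E (n + 1) →ₗ[ℝ] E (n + 1))| ^ ((n : ℝ)⁻¹), Real.rpow_pos_of_pos hdet _, ?_⟩
    exact Real.rpow_inv_natCast_pow hdet.le (by omega)
  refine ⟨B0 ≪≫ₗ LinearEquiv.smulOfNeZero ℝ _ l hl0.ne', fun p hp => ?_⟩
  funext u
  rw [Pm_comp_aux (B0 ≪≫ₗ LinearEquiv.smulOfNeZero ℝ _ l hl0.ne')
    (D ≪≫ₗ LinearEquiv.smulOfNeZero ℝ _ l⁻¹ (inv_ne_zero hl0.ne'))]
  · have h1 : ((D ≪≫ₗ LinearEquiv.smulOfNeZero ℝ _ l⁻¹ (inv_ne_zero hl0.ne') :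
        E (n + 1) ≃ₗ[ℝ] E (n + 1)) : E (n + 1) →ₗ[ℝ] E (n + 1)) =
        l⁻¹ • (D : E (n + 1) →ₗ[ℝ] E (n + 1)) := by
      ext x
      simp
    rw [h1, LinearMap.det_smul]
    simp only [LinearEquiv.trans_apply, LinearEquiv.smulOfNeZero_apply]
    rw [(Pm_good hp).smul, abs_mul, ← hl, finrank_euclideanSpace_fin, abs_of_pos (by positivity),
      abs_of_pos (by positivity)]
    have h2 : l ^ n ≠ 0 := by positivity
    have h3 : (l⁻¹ ^ (n + 1) * l ^ n)⁻¹ = l := by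
      rw [inv_pow, pow_succ, mul_inv, inv_inv, mul_comm (l ^ n) l, mul_assoc, mul_inv_cancel₀ h2,
        mul_one]
    rw [h3, ← mul_assoc, mul_inv_cancel₀ hl0.ne', one_mul]
  · intro x y
    simp only [LinearEquiv.trans_apply, LinearEquiv.smulOfNeZero_apply]
    rw [real_inner_smul_left, real_inner_smul_right, real_inner_comm, hB0, real_inner_comm]
    field_simp

-- TARGET (prove this)
theorem good_comp {p : E n → ℝ} (hp : Good p) (A : E n ≃ₗ[ℝ] E n) : Good (fun u => p (A u)) := by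
  refine ⟨fun u v => ?_, fun c u => ?_, ?_⟩
  · rw [map_add]
    exact hp.add _ _
  · rw [map_smul]
    exact hp.smul _ _
  · obtain ⟨r, R, hr, hb⟩ := hp.bd
    obtain ⟨a, ha⟩ : ∃ a : ℝ, ∀ u, ‖A u‖ ≤ a * ‖u‖ :=
      ⟨_, fun u => (LinearMap.toContinuousLinearMap (A : E n →ₗ[ℝ] E n)).le_opNorm u⟩
    obtain ⟨b, hb'⟩ : ∃ b : ℝ, ∀ u, ‖A.symm u‖ ≤ b * ‖u‖ :=
      ⟨_, fun u => (LinearMap.toContinuousLinearMap (A.symm : E n →ₗ[ℝ] E n)).le_opNorm u⟩
    refine ⟨r / (|b| + 1), |R| * a, by positivity, fun u => ⟨?_, ?_⟩⟩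
    · have h1 : ‖u‖ ≤ (|b| + 1) * ‖A u‖ := by
        have h2 := hb' (A u)
        rw [LinearEquiv.symm_apply_apply] at h2
        have h3 : b * ‖A u‖ ≤ (|b| + 1) * ‖A u‖ :=
          mul_le_mul_of_nonneg_right (by linarith [le_abs_self b]) (norm_nonneg _)
        linarith
      refine le_trans ?_ (hb (A u)).1
      rw [div_mul_eq_mul_div, div_le_iff₀ (by positivity)]
      calc r * ‖u‖ ≤ r * ((|b| + 1) * ‖A u‖) := mul_le_mul_of_nonneg_left h1 hr.le
        _ = r * ‖A u‖ * (|b| + 1) := by ring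
    · refine (hb (A u)).2.trans ?_
      calc R * ‖A u‖ ≤ |R| * ‖A u‖ := mul_le_mul_of_nonneg_right (le_abs_self R) (norm_nonneg _)
        _ ≤ |R| * (a * ‖u‖) := mul_le_mul_of_nonneg_left (ha u) (abs_nonneg _)
        _ = |R| * a * ‖u‖ := by ring

-- TARGET (prove this)
theorem good_iter {p : E (n + 1) → ℝ} (hp : Good p) (j : ℕ) : Good (Pm^[j] p) := by
  induction j with
  | zero => exact hp
  | succ j ih =>
    rw [Function.iterate_succ_apply']
    exact Pm_good ih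

-- TARGET (prove this)
theorem S_good {j : ℕ} {p : E (n + 1) → ℝ} (hp : p ∈ S j) : Good p := by
  obtain ⟨q, hq, rfl⟩ := hp
  exact good_iter hq j

-- TARGET (prove this)
theorem S_comp (hn : 1 ≤ n) {j : ℕ} {p : E (n + 1) → ℝ} (hp : p ∈ S j) (A : E (n + 1) ≃ₗ[ℝ] E (n + 1)) :
    (fun u => p (A u)) ∈ S j := by
  induction j generalizing p A with
  | zero =>
    obtain ⟨q, hq, rfl⟩ := hp
    exact ⟨_, good_comp hq A, rfl⟩
  | succ j ih =>
    obtain ⟨q, hq, rfl⟩ := hp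
    obtain ⟨A', hA'⟩ := Pm_comp' hn A
    obtain ⟨q', hq', he⟩ := ih (p := Pm^[j] q) ⟨q, hq, rfl⟩ A'
    refine ⟨q', hq', ?_⟩
    rw [Function.iterate_succ_apply', Function.iterate_succ_apply', ← he, hA' _ (good_iter hq j)]

-- TARGET (prove this)
theorem S_anti {i j : ℕ} (h : i ≤ j) {p : E (n + 1) → ℝ} (hp : p ∈ S j) : p ∈ S i := by
  obtain ⟨q, hq, rfl⟩ := hp
  refine ⟨Pm^[j - i] q, good_iter hq _, ?_⟩
  rw [← Function.iterate_add_apply]
  congr 2
  omega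

end Pool.Agent.Helper873.PBody
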