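import Mathlib
import Pool.Agent.Helper873.PBody.Defs
import Pool.Agent.Helper873.PBody.GB

set_option autoImplicit false

open MeasureTheory Metric Set Filter Topology
open scoped Pointwise

namespace Pool.Agent.Helper873.PBody

variable {n : ℕ}

-- TARGET (prove this)
theorem position (n : ℕ) : ∃ N : ℝ, 1 ≤ N ∧ ∀ p : E n → ℝ, Good p → ∃ A : E n ≃ₗ[ℝ] E n,
    Nice N (fun u => p (A u)) := by
  refine ⟨(n : ℝ) ^ 2 + 1, by nlinarith [sq_nonneg (n : ℝ)], ?_⟩
  intro p hp
  obtain ⟨r, R, hr, hb⟩ := hp.bd
  have hp0 : p 0 = 0 := by simpa using hp.smul 0 0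
  have hnn : ∀ u, 0 ≤ p u := fun u => le_trans (by positivity) (hb u).1
  have hcont : Continuous p := by
    have : LipschitzWith (Real.toNNReal R) p := by
      apply LipschitzWith.of_dist_le_mul
      intro u v
      rw [Real.dist_eq, dist_eq_norm]
      have h1 : p u ≤ p v + p (u - v) := by simpa using hp.add v (u - v)
      have h2 : p v ≤ p u + p (v - u) := by simpa using hp.add u (v - u)
      have h3 := (hb (u - v)).2
      have h4 := (hb (v - u)).2
      rw [norm_sub_rev] at h4
      have h5 : R * ‖u - v‖ ≤ (Real.toNNReal R : ℝ) * ‖u - v‖ :=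
        mul_le_mul_of_nonneg_right (Real.le_coe_toNNReal R) (norm_nonneg _)
      rw [abs_le]
      constructor <;> linarith
    exact this.continuous
  have hK : IsCompact {x : E n | p x ≤ 1} := by
    apply Metric.isCompact_of_isClosed_isBounded (isClosed_le hcont continuous_const)
    apply (Metric.isBounded_closedBall (x := (0 : E n)) (r := 1 / r)).subset
    intro x hx
    rw [mem_closedBall_zero_iff, le_div_iff₀ hr]
    have := (hb x).1
    have hx' : p x ≤ 1 := hx
    linarith
  have hT := isCompact_univ_pi (fun _ : Fin n => hK)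
  obtain ⟨D, hDdef⟩ : ∃ D : (Fin n → E n) → ℝ, ∀ v, D v = Matrix.det (Matrix.of (fun i j => v i j)) :=
    ⟨_, fun _ => rfl⟩
  have hD : Continuous (fun v => |D v|) := by
    apply Continuous.abs
    rw [show D = fun v => Matrix.det (Matrix.of (fun i j => v i j)) from funext hDdef]
    apply Continuous.matrix_det
    refine continuous_matrix (fun i j => ?_)
    show Continuous (fun w : Fin n → E n => w i j)
    fun_prop
  obtain ⟨v, hv, hmax⟩ := hT.exists_isMaxOn ⟨fun _ => 0, by simp [hp0]⟩ hD.continuousOn
  have hmax' : ∀ w : Fin n → E n, (∀ i, p (w i) ≤ 1) → |D w| ≤ |D v| := by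
    intro w hw
    exact hmax (fun i _ => hw i)
  have hv' : ∀ i, p (v i) ≤ 1 := fun i => hv i trivial
  have hDv : 0 < |D v| := by
    have ht : (0 : ℝ) < 1 / (|R| + 1) := by positivity
    have h1 := hmax' (fun i => (1 / (|R| + 1)) • EuclideanSpace.single i (1 : ℝ)) (by
      intro i
      show p ((1 / (|R| + 1)) • EuclideanSpace.single i (1 : ℝ)) ≤ 1
      rw [hp.smul, abs_of_pos ht]
      have h2 := (hb (EuclideanSpace.single i (1 : ℝ))).2
      rw [EuclideanSpace.norm_single, norm_one, mul_one] at h2
      rw [div_mul_eq_mul_div, one_mul, div_le_one (by positivity)]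
      linarith [le_abs_self R])
    have h3 : D (fun i => (1 / (|R| + 1)) • EuclideanSpace.single i (1 : ℝ)) =
        (1 / (|R| + 1)) ^ n := by
      rw [hDdef]
      have : (Matrix.of (fun i j : Fin n => ((1 / (|R| + 1)) • EuclideanSpace.single i (1 : ℝ) : E n) j)) =
          (1 / (|R| + 1)) • (1 : Matrix (Fin n) (Fin n) ℝ) := by
        ext i j
        simp only [Matrix.of_apply, PiLp.smul_apply, PiLp.single_apply, smul_eq_mul,
          Matrix.smul_apply, Matrix.one_apply]
        simp only [eq_comm]
      rw [this, Matrix.det_smul, Matrix.det_one, mul_one, Fintype.card_fin]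
    rw [h3] at h1
    have h4 : 0 < |(1 / (|R| + 1)) ^ n| := by
      rw [abs_of_pos (by positivity)]
      positivity
    linarith
  -- updating a row
  have hupd : ∀ (i : Fin n) (x : E n), |D (Function.update v i x)| ≤ p x * |D v| := by
    intro i x
    have hrow : ∀ (c : ℝ) (y : E n), D (Function.update v i (c • y)) =
        c * D (Function.update v i y) := by
      intro c y
      rw [hDdef, hDdef]
      have e1 : ∀ z : E n, Matrix.of (fun a b => (Function.update v i z) a b) =
          (Matrix.of (fun a b => v a b)).updateRow i z := by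
        intro z
        ext a b
        rw [Matrix.of_apply, Matrix.updateRow_apply]
        by_cases h : a = i
        · subst h
          rw [Function.update_self, if_pos rfl]
        · rw [Function.update_of_ne h, if_neg h, Matrix.of_apply]
      rw [e1, e1]
      have := Matrix.det_updateRow_smul (Matrix.of (fun a b => v a b)) i c (y : Fin n → ℝ)
      exact this
    rcases eq_or_lt_of_le (hnn x) with h0 | h0
    · have hx : x = 0 := by
        have := (hb x).1
        rw [← h0] at this
        have h6 : ‖x‖ ≤ 0 := by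
          by_contra h
          push Not at h
          nlinarith
        exact norm_le_zero_iff.1 h6
      rw [hx, hp0, zero_mul]
      have := hrow 0 0
      rw [zero_smul, zero_mul] at this
      rw [this, abs_zero]
    · have h1 := hmax' (Function.update v i ((p x)⁻¹ • x)) (by
        intro j
        by_cases h : j = i
        · subst h
          rw [Function.update_self, hp.smul, abs_of_pos (inv_pos.2 h0), inv_mul_cancel₀ h0.ne']
        · rw [Function.update_of_ne h]
          exact hv' j)
      rw [hrow, abs_mul, abs_of_pos (inv_pos.2 h0)] at h1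
      rwa [inv_mul_le_iff₀ h0] at h1
  have hco : ∀ (u : E n) (i : Fin n), |u i| ≤ p (∑ j, u j • v j) := by
    intro u i
    have h1 := hupd i (∑ j, u j • v j)
    have h2 : D (Function.update v i (∑ j, u j • v j)) = u i * D v := by
      rw [hDdef, hDdef]
      have e1 : Matrix.of (fun a b => (Function.update v i (∑ j, u j • v j)) a b) =
          (Matrix.of (fun a b => v a b)).updateRow i
            (∑ j, u j • (Matrix.of (fun a b => v a b)) j) := by
        ext a b
        rw [Matrix.of_apply, Matrix.updateRow_apply]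
        by_cases h : a = i
        · subst h
          rw [Function.update_self, if_pos rfl]
          simp
        · rw [Function.update_of_ne h, if_neg h, Matrix.of_apply]
      rw [e1, Matrix.det_updateRow_sum]
      rfl
    rw [h2, abs_mul] at h1
    exact le_of_mul_le_mul_right h1 hDv
  have hub : ∀ (u : E n), p (∑ j, u j • v j) ≤ n * ‖u‖ := by
    intro u
    have h1 : ∀ s : Finset (Fin n), p (∑ j ∈ s, u j • v j) ≤ ∑ j ∈ s, |u j| := by
      intro s
      induction s using Finset.induction_on with
      | empty => simp [hp0]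
      | insert a s ha ih =>
        rw [Finset.sum_insert ha, Finset.sum_insert ha]
        refine (hp.add _ _).trans ?_
        rw [hp.smul]
        have : |u a| * p (v a) ≤ |u a| * 1 := mul_le_mul_of_nonneg_left (hv' a) (abs_nonneg _)
        linarith
    refine (h1 Finset.univ).trans ?_
    have h2 : ∀ j ∈ (Finset.univ : Finset (Fin n)), |u j| ≤ ‖u‖ := by
      intro j _
      have := PiLp.norm_apply_le u j
      rwa [Real.norm_eq_abs] at this
    refine (Finset.sum_le_sum h2).trans ?_
    simp
  have hlb : ∀ (u : E n), ‖u‖ ≤ n * p (∑ j, u j • v j) := by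
    intro u
    have h1 : ‖u‖ ≤ ∑ j, |u j| := by
      have h2 := (EuclideanSpace.basisFun (Fin n) ℝ).sum_repr u
      have h3 : ‖∑ i, (EuclideanSpace.basisFun (Fin n) ℝ).repr u i • EuclideanSpace.basisFun (Fin n) ℝ i‖
          ≤ ∑ j, |u j| := by
        refine (norm_sum_le _ _).trans (Finset.sum_le_sum ?_)
        intro j _
        rw [norm_smul, OrthonormalBasis.norm_eq_one, mul_one, Real.norm_eq_abs,
          EuclideanSpace.basisFun_repr]
      rwa [h2] at h3
    refine h1.trans ((Finset.sum_le_sum (fun j _ => hco u j)).trans ?_)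
    simp
  -- the linear map
  let A0 : E n →ₗ[ℝ] E n :=
    { toFun := fun u => ∑ j, u j • ((n : ℝ) • v j)
      map_add' := fun u w => by
        simp only [PiLp.add_apply, add_smul, Finset.sum_add_distrib]
      map_smul' := fun c u => by
        simp only [PiLp.smul_apply, smul_eq_mul, RingHom.id_apply, Finset.smul_sum, mul_smul] }
  have hA0 : ∀ u, A0 u = (n : ℝ) • ∑ j, u j • v j := by
    intro u
    show ∑ j, u j • ((n : ℝ) • v j) = _
    rw [Finset.smul_sum]
    exact Finset.sum_congr rfl (fun j _ => smul_comm _ _ _)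
  have hpA : ∀ u, p (A0 u) = n * p (∑ j, u j • v j) := by
    intro u
    rw [hA0, hp.smul, abs_of_nonneg (Nat.cast_nonneg n)]
  have hinj : Function.Injective A0 := by
    rw [← LinearMap.ker_eq_bot, LinearMap.ker_eq_bot']
    intro u hu
    have h1 := hlb u
    rw [← hpA, hu, hp0] at h1
    exact norm_le_zero_iff.1 h1
  have hAe : ∀ u, LinearEquiv.ofInjectiveEndo A0 hinj u = A0 u := fun u => rfl
  have hbd : ∀ u, ‖u‖ ≤ p (LinearEquiv.ofInjectiveEndo A0 hinj u) ∧
      p (LinearEquiv.ofInjectiveEndo A0 hinj u) ≤ ((n : ℝ) ^ 2 + 1) * ‖u‖ := by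
    intro u
    rw [hAe, hpA]
    refine ⟨hlb u, ?_⟩
    have h1 := mul_le_mul_of_nonneg_left (hub u) (Nat.cast_nonneg n : (0 : ℝ) ≤ n)
    have h2 := norm_nonneg u
    nlinarith
  refine ⟨LinearEquiv.ofInjectiveEndo A0 hinj, ⟨?_, ?_, ⟨1, (n : ℝ) ^ 2 + 1, one_pos, ?_⟩⟩, hbd⟩
  · intro u w
    show p (LinearEquiv.ofInjectiveEndo A0 hinj (u + w)) ≤ _
    rw [map_add]
    exact hp.add _ _
  · intro c u
    show p (LinearEquiv.ofInjectiveEndo A0 hinj (c • u)) = _
    rw [map_smul]
    exact hp.smul _ _
  · intro u
    rw [one_mul]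
    exact hbd u

end Pool.Agent.Helper873.PBody
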