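import Mathlib
import Pool.Agent.Helper873.PBody.Defs
import Pool.Agent.Helper873.PBody.GC
import Pool.Agent.Helper873.PBody.GD

set_option autoImplicit false

open MeasureTheory Metric Set Filter Topology
open scoped Pointwise

namespace Pool.Agent.Helper873.PBody

variable {n : ℕ}

-- TARGET (prove this)
theorem nice_lim {C : ℝ} {p : ℕ → E n → ℝ} (hp : ∀ᶠ m in Uf, Nice C (p m)) :
    ∃ q, Nice C q ∧ ∀ u, Tendsto (fun m => p m u) Uf (𝓝 (q u)) := by
  have hex : ∀ u : E n, ∃ x ∈ Icc ‖u‖ (C * ‖u‖), Tendsto (fun m => p m u) Uf (𝓝 x) := by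
    intro u
    have hmem : Icc ‖u‖ (C * ‖u‖) ∈ (Uf.map (fun m => p m u)) := by
      rw [Ultrafilter.mem_map]
      filter_upwards [hp] with m hm
      exact hm.2 u
    obtain ⟨x, hx, hle⟩ := isCompact_Icc.ultrafilter_le_nhds (Uf.map (fun m => p m u))
      (le_principal_iff.2 hmem)
    exact ⟨x, hx, hle⟩
  choose q hq1 hq2 using hex
  refine ⟨q, ⟨⟨?_, ?_, ?_⟩, hq1⟩, hq2⟩
  · intro u v
    refine le_of_tendsto_of_tendsto (hq2 (u + v)) ((hq2 u).add (hq2 v)) ?_
    filter_upwards [hp] with m hm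
    exact hm.1.add u v
  · intro c u
    refine tendsto_nhds_unique (hq2 (c • u)) (((hq2 u).const_mul |c|).congr' ?_)
    filter_upwards [hp] with m hm
    exact (hm.1.smul c u).symm
  · refine ⟨1, C, one_pos, fun u => ⟨?_, (hq1 u).2⟩⟩
    rw [one_mul]
    exact (hq1 u).1

theorem nice_unif_lip {C : ℝ} {p : E n → ℝ} (hp : Nice C p) (u v : E n) :
    |p u - p v| ≤ (|C| + 1) * ‖u - v‖ := by
  have hb : ∀ w : E n, p w ≤ (|C| + 1) * ‖w‖ := by
    intro w
    refine (hp.2 w).2.trans ?_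
    apply mul_le_mul_of_nonneg_right _ (norm_nonneg _)
    have := le_abs_self C
    linarith
  have h1 : p u ≤ p v + p (u - v) := by
    have := hp.1.add v (u - v)
    rwa [add_sub_cancel] at this
  have h2 : p v ≤ p u + p (v - u) := by
    have := hp.1.add u (v - u)
    rwa [add_sub_cancel] at this
  have h3 := hb (u - v)
  have h4 := hb (v - u)
  rw [norm_sub_rev v u] at h4
  rw [abs_le]
  constructor <;> linarith

theorem nice_unif_zero {C : ℝ} {p : E n → ℝ} (hp : Nice C p) : p 0 = 0 := by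
  have h := hp.2 0
  rw [norm_zero, mul_zero] at h
  exact le_antisymm h.2 h.1

-- TARGET (prove this)
theorem nice_unif {C : ℝ} {p : ℕ → E n → ℝ} (hp : ∀ᶠ m in Uf, Nice C (p m)) {q : E n → ℝ}
    (hq : Nice C q) (h : ∀ u, Tendsto (fun m => p m u) Uf (𝓝 (q u))) {ε : ℝ} (hε : 0 < ε) :
    ∀ᶠ m in Uf, ∀ u, |p m u - q u| ≤ ε * ‖u‖ := by
  have hC : 0 < |C| + 1 := by positivity
  have he : 0 < ε / (4 * (|C| + 1)) := by positivity
  obtain ⟨T, -, hTfin, hTcov⟩ := (isCompact_sphere (0 : E n) 1).finite_cover_balls he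
  have hall : ∀ᶠ m in Uf, ∀ t ∈ T, |p m t - q t| < ε / 4 := by
    refine (Filter.eventually_all_finite hTfin).2 (fun t _ => ?_)
    have := Metric.tendsto_nhds.1 (h t) (ε / 4) (by positivity)
    filter_upwards [this] with m hm
    rwa [Real.dist_eq] at hm
  filter_upwards [hp, hall] with m hm hmT
  intro u
  by_cases hu : u = 0
  · rw [hu, nice_unif_zero hm, nice_unif_zero hq]
    simp
  · have hun : 0 < ‖u‖ := norm_pos_iff.2 hu
    have hw : ‖u‖⁻¹ • u ∈ sphere (0 : E n) 1 := by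
      rw [mem_sphere_zero_iff_norm, norm_smul, norm_inv, norm_norm]
      exact inv_mul_cancel₀ hun.ne'
    obtain ⟨t, ht, hwt⟩ := mem_iUnion₂.1 (hTcov hw)
    rw [mem_ball, dist_eq_norm] at hwt
    have hlip : (|C| + 1) * ‖‖u‖⁻¹ • u - t‖ ≤ ε / 4 := by
      have h1 : (|C| + 1) * ‖‖u‖⁻¹ • u - t‖ ≤ (|C| + 1) * (ε / (4 * (|C| + 1))) :=
        mul_le_mul_of_nonneg_left hwt.le hC.le
      refine h1.trans (le_of_eq ?_)
      field_simp
    have h1 := (nice_unif_lip hm (‖u‖⁻¹ • u) t).trans hlip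
    have h2 := (nice_unif_lip hq (‖u‖⁻¹ • u) t).trans hlip
    have h3 := (hmT t ht).le
    have h4 : |p m (‖u‖⁻¹ • u) - q (‖u‖⁻¹ • u)| ≤ ε := by
      rw [abs_le] at h1 h2 h3 ⊢
      constructor <;> linarith [h1.1, h1.2, h2.1, h2.2, h3.1, h3.2]
    have h5 : u = ‖u‖ • (‖u‖⁻¹ • u) := by
      rw [smul_smul, mul_inv_cancel₀ hun.ne', one_smul]
    have h6 : p m u = ‖u‖ * p m (‖u‖⁻¹ • u) := by
      conv_lhs => rw [h5]
      rw [hm.1.smul, abs_of_pos hun]
    have h7 : q u = ‖u‖ * q (‖u‖⁻¹ • u) := by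
      conv_lhs => rw [h5]
      rw [hq.1.smul, abs_of_pos hun]
    rw [h6, h7, ← mul_sub, abs_mul, abs_of_pos hun, mul_comm ε]
    exact mul_le_mul_of_nonneg_left h4 hun.le

-- TARGET (prove this)
theorem Pm_lim {C : ℝ} {p : ℕ → E (n + 1) → ℝ} (hp : ∀ᶠ m in Uf, Nice C (p m)) {q : E (n + 1) → ℝ}
    (hq : Nice C q) (h : ∀ u, Tendsto (fun m => p m u) Uf (𝓝 (q u))) (u : E (n + 1)) :
    Tendsto (fun m => Pm (p m) u) Uf (𝓝 (Pm q u)) := by
  have hgood : ∀ c : ℝ, 0 < c → Good (fun v => c * q v) := by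
    intro c hc
    obtain ⟨r, R, hr, hrR⟩ := hq.1.bd
    refine ⟨?_, ?_, c * r, c * R, by positivity, ?_⟩
    · intro v w
      have := mul_le_mul_of_nonneg_left (hq.1.add v w) hc.le
      linarith
    · intro a v
      rw [hq.1.smul]
      ring
    · intro v
      have h1 := mul_le_mul_of_nonneg_left (hrR v).1 hc.le
      have h2 := mul_le_mul_of_nonneg_left (hrR v).2 hc.le
      constructor <;> linarith
  have key : ∀ ε : ℝ, 0 < ε → ε < 1 → ∀ᶠ m in Uf,
      (1 - ε) ^ n * Pm q u ≤ Pm (p m) u ∧ Pm (p m) u ≤ (1 + ε) ^ n * Pm q u := by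
    intro ε h0 h1
    filter_upwards [nice_unif hp hq h h0, hp] with m hm hpm
    have hlow : ∀ v, (1 - ε) * q v ≤ p m v := by
      intro v
      have h2 := abs_le.mp (hm v)
      have h3 := mul_le_mul_of_nonneg_left (hq.2 v).1 h0.le
      linarith [h2.1]
    have hup : ∀ v, p m v ≤ (1 + ε) * q v := by
      intro v
      have h2 := abs_le.mp (hm v)
      have h3 := mul_le_mul_of_nonneg_left (hq.2 v).1 h0.le
      linarith [h2.2]
    have hc1 : 0 < 1 - ε := by linarith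
    have hc2 : 0 < 1 + ε := by linarith
    constructor
    · rw [← Pm_const_mul hq.1 hc1]
      exact Pm_mono (hgood _ hc1) hpm.1 hlow u
    · rw [← Pm_const_mul hq.1 hc2]
      exact Pm_mono hpm.1 (hgood _ hc2) hup u
  rw [Metric.tendsto_nhds]
  intro δ hδ
  have t1 : Tendsto (fun ε : ℝ => (1 + ε) ^ n * Pm q u) (𝓝[>] 0) (𝓝 (Pm q u)) := by
    have hc : Continuous (fun ε : ℝ => (1 + ε) ^ n * Pm q u) := by fun_prop
    have := hc.tendsto 0
    simp only [add_zero, one_pow, one_mul] at this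
    exact this.mono_left nhdsWithin_le_nhds
  have t2 : Tendsto (fun ε : ℝ => (1 - ε) ^ n * Pm q u) (𝓝[>] 0) (𝓝 (Pm q u)) := by
    have hc : Continuous (fun ε : ℝ => (1 - ε) ^ n * Pm q u) := by fun_prop
    have := hc.tendsto 0
    simp only [sub_zero, one_pow, one_mul] at this
    exact this.mono_left nhdsWithin_le_nhds
  have e1 := (Metric.tendsto_nhds.mp t1) δ hδ
  have e2 := (Metric.tendsto_nhds.mp t2) δ hδ
  have e3 : ∀ᶠ ε in 𝓝[>] (0 : ℝ), ε ∈ Ioo (0 : ℝ) 1 := Ioo_mem_nhdsGT one_pos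
  obtain ⟨ε, h1, h2, h3⟩ := (e1.and (e2.and e3)).exists
  filter_upwards [key ε h3.1 h3.2] with m hm
  rw [Real.dist_eq, abs_lt] at h1 h2 ⊢
  constructor <;> linarith [hm.1, hm.2, h1.1, h1.2, h2.1, h2.2]

-- TARGET (prove this)
theorem equiv_lim {a b : ℝ} (D : ℕ → E n ≃ₗ[ℝ] E n)
    (hD : ∀ᶠ m in Uf, ∀ u, ‖D m u‖ ≤ a * ‖u‖ ∧ ‖u‖ ≤ b * ‖D m u‖) :
    ∃ D' : E n ≃ₗ[ℝ] E n, ∀ u, Tendsto (fun m => D m u) Uf (𝓝 (D' u)) := by
  have hlim : ∀ u : E n, ∃ y : E n, Tendsto (fun m => D m u) Uf (𝓝 y) := by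
    intro u
    have hc : IsCompact (closedBall (0 : E n) (a * ‖u‖)) := isCompact_closedBall _ _
    obtain ⟨y, _, hy⟩ := hc.ultrafilter_le_nhds (Uf.map (fun m => D m u)) (by
      rw [Filter.le_principal_iff]
      change ∀ᶠ m in Uf, D m u ∈ closedBall (0 : E n) (a * ‖u‖)
      filter_upwards [hD] with m hm
      rw [mem_closedBall, dist_zero_right]
      exact (hm u).1)
    exact ⟨y, hy⟩
  choose L hL using hlim
  let L' : E n →ₗ[ℝ] E n :=
    { toFun := L
      map_add' := by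
        intro u v
        refine tendsto_nhds_unique (hL (u + v)) ?_
        have := (hL u).add (hL v)
        refine this.congr (fun m => ?_)
        rw [map_add]
      map_smul' := by
        intro c u
        refine tendsto_nhds_unique (hL (c • u)) ?_
        have := (hL u).const_smul c
        refine this.congr (fun m => ?_)
        rw [map_smul] }
  have hinj : Function.Injective L' := by
    rw [injective_iff_map_eq_zero]
    intro u hu
    have hu' : L u = 0 := hu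
    have h1 : ‖u‖ ≤ b * ‖L u‖ := by
      refine ge_of_tendsto ((hL u).norm.const_mul b) ?_
      filter_upwards [hD] with m hm
      exact (hm u).2
    rw [hu', norm_zero, mul_zero] at h1
    exact norm_le_zero_iff.mp h1
  exact ⟨LinearEquiv.ofInjectiveEndo L' hinj, fun u => hL u⟩

-- TARGET (prove this)
theorem S_lim (hn : 1 ≤ n) (j : ℕ) : ∀ {C : ℝ} {p : ℕ → E (n + 1) → ℝ}
    (_ : ∀ᶠ m in Uf, Nice C (p m) ∧ p m ∈ S j) {q : E (n + 1) → ℝ}
    (_ : Nice C q) (_ : ∀ u, Tendsto (fun m => p m u) Uf (𝓝 (q u))), q ∈ S j := by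
  induction j with
  | zero =>
    intro C p _ q hq _
    exact ⟨q, hq.1, rfl⟩
  | succ j ih =>
    intro C p hp q hq hlim
    obtain ⟨N, hN1, hN⟩ := position (n + 1)
    obtain ⟨c, hc, hcn⟩ := Pm_norm (n := n)
    have hN0 : 0 < N := lt_of_lt_of_le one_pos hN1
    have hgn : Good (fun v : E (n + 1) => ‖v‖) := by
      refine ⟨fun u v => norm_add_le u v, fun a u => ?_, 1, 1, one_pos, fun u => ?_⟩
      · rw [norm_smul, Real.norm_eq_abs]
      · rw [one_mul]
        exact ⟨le_rfl, le_rfl⟩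
    have hgN : Good (fun v : E (n + 1) => N * ‖v‖) := by
      refine ⟨fun u v => ?_, fun a u => ?_, N, N, hN0, fun u => ⟨le_rfl, le_rfl⟩⟩
      · rw [← mul_add]
        exact mul_le_mul_of_nonneg_left (norm_add_le u v) hN0.le
      · rw [norm_smul, Real.norm_eq_abs]
        ring
    -- bounds for `Pm s`
    have hlow : ∀ s : E (n + 1) → ℝ, Nice N s → ∀ v, c * ‖v‖ ≤ Pm s v := by
      intro s hs v
      rw [← hcn]
      exact Pm_mono hgn hs.1 (fun u => (hs.2 u).1) v
    have hup : ∀ s : E (n + 1) → ℝ, Nice N s → ∀ v, Pm s v ≤ c * N ^ n * ‖v‖ := by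
      intro s hs v
      have h1 := Pm_mono hs.1 hgN (fun u => (hs.2 u).2) v
      have h2 := Pm_const_mul hgn hN0 v
      rw [hcn] at h2
      rw [h2] at h1
      linarith
    -- choice of the positions
    have hstep : ∀ m, ∃ (s : E (n + 1) → ℝ) (T : E (n + 1) ≃ₗ[ℝ] E (n + 1)),
        (Nice C (p m) ∧ p m ∈ S (j + 1)) → Nice N s ∧ s ∈ S j ∧ ∀ u, p m u = Pm s (T u) := by
      intro m
      by_cases hm : Nice C (p m) ∧ p m ∈ S (j + 1)
      · obtain ⟨-, q', hq', hpm⟩ := hm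
        rw [Function.iterate_succ_apply'] at hpm
        have hr : Good (Pm^[j] q') := good_iter hq' j
        have hrS : (Pm^[j] q' : E (n + 1) → ℝ) ∈ S j := ⟨q', hq', rfl⟩
        obtain ⟨A, hA⟩ := hN _ hr
        obtain ⟨D, hD⟩ := Pm_comp A
        refine ⟨fun u => (Pm^[j] q') (A u), D.symm, fun _ => ⟨hA, S_comp hn hrS A, fun u => ?_⟩⟩
        rw [hD _ hr, hpm]
        simp only [LinearEquiv.apply_symm_apply]
      · exact ⟨0, LinearEquiv.refl ℝ _, fun h => absurd h hm⟩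
    choose s T hsT using hstep
    have hs1 : ∀ᶠ m in Uf, Nice N (s m) := hp.mono fun m hm => (hsT m hm).1
    have hs2 : ∀ᶠ m in Uf, Nice N (s m) ∧ s m ∈ S j := hp.mono fun m hm =>
      ⟨(hsT m hm).1, (hsT m hm).2.1⟩
    obtain ⟨s', hs', hs'lim⟩ := nice_lim hs1
    have hs'S : s' ∈ S j := ih hs2 hs' hs'lim
    have hTb : ∀ᶠ m in Uf, ∀ u, ‖T m u‖ ≤ C / c * ‖u‖ ∧ ‖u‖ ≤ c * N ^ n * ‖T m u‖ := by
      refine hp.mono fun m hm u => ?_
      obtain ⟨h1, -, h3⟩ := hsT m hm
      have h4 := hlow _ h1 (T m u)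
      have h5 := hup _ h1 (T m u)
      rw [← h3] at h4 h5
      have h6 := hm.1.2 u
      refine ⟨?_, h6.1.trans h5⟩
      rw [div_mul_eq_mul_div, le_div_iff₀ hc]
      linarith [h6.2]
    obtain ⟨T', hT'⟩ := equiv_lim T hTb
    have hkey : ∀ u, q u = Pm s' (T' u) := by
      intro u
      have t1 : Tendsto (fun m => Pm (s m) (T' u)) Uf (𝓝 (Pm s' (T' u))) :=
        Pm_lim hs1 hs' hs'lim (T' u)
      have t2 : Tendsto (fun m => ‖T m u - T' u‖) Uf (𝓝 0) :=
        tendsto_iff_norm_sub_tendsto_zero.1 (hT' u)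
      have t3 : Tendsto (fun m => c * N ^ n * ‖T m u - T' u‖) Uf (𝓝 0) := by
        have := t2.const_mul (c * N ^ n)
        rwa [mul_zero] at this
      have t4 : Tendsto (fun m => p m u - Pm (s m) (T' u)) Uf (𝓝 0) := by
        refine squeeze_zero_norm' ?_ t3
        refine hp.mono fun m hm => ?_
        obtain ⟨h1, -, h3⟩ := hsT m hm
        rw [h3, Real.norm_eq_abs]
        have hg := Pm_good h1.1
        have a1 := hg.add (T' u) (T m u - T' u)
        have a2 := hg.add (T m u) (T' u - T m u)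
        rw [add_sub_cancel] at a1 a2
        have a3 := hup _ h1 (T m u - T' u)
        have a4 := hup _ h1 (T' u - T m u)
        rw [norm_sub_rev] at a4
        rw [abs_le]
        constructor <;> linarith
      have t5 : Tendsto (fun m => p m u) Uf (𝓝 (Pm s' (T' u))) := by
        have := t4.add t1
        simpa using this
      exact tendsto_nhds_unique (hlim u) t5
    have hqe : q = fun u => Pm s' (T' u) := funext hkey
    rw [hqe]
    have hPS : Pm s' ∈ S (j + 1) := by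
      obtain ⟨q'', hq'', hs''⟩ := hs'S
      refine ⟨q'', hq'', ?_⟩
      rw [Function.iterate_succ_apply', hs'']
    exact S_comp hn hPS T'

end Pool.Agent.Helper873.PBody
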