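import Mathlib
import Pool.Agent.Helper873.PBody.Defs
import Pool.Agent.Helper873.PBody.GE

set_option autoImplicit false

open MeasureTheory Metric Set Filter Topology
open scoped Pointwise

namespace Pool.Agent.Helper873.PBody

variable {n : ℕ}

theorem path_cont_good_mul {m : ℕ} {p : E m → ℝ} (hp : Good p) {c : ℝ} (hc : 0 < c) :
    Good (fun u => c * p u) := by
  refine ⟨?_, ?_, ?_⟩
  · intro u v
    have := mul_le_mul_of_nonneg_left (hp.add u v) hc.le
    linarith
  · intro d u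
    rw [hp.smul]; ring
  · obtain ⟨r, R, hr, h⟩ := hp.bd
    refine ⟨c * r, c * R, by positivity, ?_⟩
    intro u
    obtain ⟨h1, h2⟩ := h u
    constructor
    · have := mul_le_mul_of_nonneg_left h1 hc.le
      linarith
    · have := mul_le_mul_of_nonneg_left h2 hc.le
      linarith

theorem path_cont_nonneg {m : ℕ} {p : E m → ℝ} (hp : Good p) (u : E m) : 0 ≤ p u := by
  obtain ⟨r, R, hr, h⟩ := hp.bd
  exact le_trans (by positivity) (h u).1

theorem path_cont_lower {p q : E (n + 1) → ℝ} (hp : Good p) (hq : Good q) {c : ℝ} (hc : 0 < c)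
    (h : ∀ u, c * p u ≤ q u) (j : ℕ) : ∀ u, c ^ (n ^ j) * Pm^[j] p u ≤ Pm^[j] q u := by
  induction j with
  | zero =>
    intro u
    simpa using h u
  | succ j ih =>
    intro u
    rw [Function.iterate_succ_apply', Function.iterate_succ_apply']
    have hc' : 0 < c ^ (n ^ j) := by positivity
    have h1 := Pm_mono (path_cont_good_mul (good_iter hp j) hc') (good_iter hq j) ih u
    rw [Pm_const_mul (good_iter hp j) hc', ← pow_mul, ← pow_succ] at h1
    exact h1

theorem path_cont_upper {p q : E (n + 1) → ℝ} (hp : Good p) (hq : Good q) {c : ℝ} (hc : 0 < c)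
    (h : ∀ u, q u ≤ c * p u) (j : ℕ) : ∀ u, Pm^[j] q u ≤ c ^ (n ^ j) * Pm^[j] p u := by
  induction j with
  | zero =>
    intro u
    simpa using h u
  | succ j ih =>
    intro u
    rw [Function.iterate_succ_apply', Function.iterate_succ_apply']
    have hc' : 0 < c ^ (n ^ j) := by positivity
    have h1 := Pm_mono (good_iter hq j) (path_cont_good_mul (good_iter hp j) hc') ih u
    rw [Pm_const_mul (good_iter hp j) hc', ← pow_mul, ← pow_succ] at h1
    exact h1

-- TARGET (prove this)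
theorem path_cont {Φ : (E (n + 1) → ℝ) → ℝ} (hΦ : Cont Φ) (j : ℕ) {a b : E (n + 1) → ℝ} (ha : Good a)
    (hb : Good b) :
    ContinuousOn (fun s : ℝ => Φ (Pm^[j] (fun u => (1 - s) * a u + s * b u))) (Icc 0 1) := by
  obtain ⟨r1, R1, hr1, h1⟩ := ha.bd
  obtain ⟨r2, R2, hr2, h2⟩ := hb.bd
  obtain ⟨r, hr, hra, hrb⟩ : ∃ r : ℝ, 0 < r ∧ (∀ u, r * ‖u‖ ≤ a u) ∧ (∀ u, r * ‖u‖ ≤ b u) := by
    refine ⟨min r1 r2, lt_min hr1 hr2, ?_, ?_⟩
    · intro u
      exact (mul_le_mul_of_nonneg_right (min_le_left _ _) (norm_nonneg u)).trans (h1 u).1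
    · intro u
      exact (mul_le_mul_of_nonneg_right (min_le_right _ _) (norm_nonneg u)).trans (h2 u).1
  obtain ⟨R, hR, hRa, hRb⟩ : ∃ R : ℝ, 0 < R ∧ (∀ u, a u ≤ R * ‖u‖) ∧ (∀ u, b u ≤ R * ‖u‖) := by
    refine ⟨max (max R1 R2) 1, lt_of_lt_of_le one_pos (le_max_right _ _), ?_, ?_⟩
    · intro u
      exact (h1 u).2.trans (mul_le_mul_of_nonneg_right
        ((le_max_left R1 R2).trans (le_max_left _ _)) (norm_nonneg u))
    · intro u
      exact (h2 u).2.trans (mul_le_mul_of_nonneg_right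
        ((le_max_right R1 R2).trans (le_max_left _ _)) (norm_nonneg u))
  have hgood : ∀ s ∈ Icc (0 : ℝ) 1, Good (fun u => (1 - s) * a u + s * b u) := by
    rintro s ⟨hs0, hs1⟩
    refine ⟨?_, ?_, ?_⟩
    · intro u v
      have e1 := mul_le_mul_of_nonneg_left (ha.add u v) (by linarith : (0 : ℝ) ≤ 1 - s)
      have e2 := mul_le_mul_of_nonneg_left (hb.add u v) hs0
      linarith
    · intro c u
      rw [ha.smul, hb.smul]; ring
    · refine ⟨r, R, hr, ?_⟩
      intro u
      constructor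
      · have e1 := mul_le_mul_of_nonneg_left (hra u) (by linarith : (0 : ℝ) ≤ 1 - s)
        have e2 := mul_le_mul_of_nonneg_left (hrb u) hs0
        linarith
      · have e1 := mul_le_mul_of_nonneg_left (hRa u) (by linarith : (0 : ℝ) ≤ 1 - s)
        have e2 := mul_le_mul_of_nonneg_left (hRb u) hs0
        linarith
  rw [Metric.continuousOn_iff]
  intro s0 hs0 ε hε
  obtain ⟨δ, hδ, hδ'⟩ := hΦ _ (good_iter (hgood s0 hs0) j) ε hε
  have hcp : ContinuousAt (fun t : ℝ => t ^ (n ^ j)) 1 := (continuous_pow _).continuousAt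
  rw [Metric.continuousAt_iff] at hcp
  obtain ⟨η0, hη0, hη⟩ := hcp δ hδ
  set η1 := min η0 1 with hη1
  have hη1pos : 0 < η1 := lt_min hη0 one_pos
  refine ⟨η1 * r / (2 * R), by positivity, ?_⟩
  intro s hs hdist
  rw [Real.dist_eq] at hdist
  set η : ℝ := |s - s0| * (2 * R / r) with hηdef
  have hηnn : 0 ≤ η := by positivity
  have hηlt : η < η1 := by
    rw [hηdef]
    have : |s - s0| * (2 * R / r) < η1 * r / (2 * R) * (2 * R / r) :=
      mul_lt_mul_of_pos_right hdist (by positivity)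
    have e : η1 * r / (2 * R) * (2 * R / r) = η1 := by field_simp
    rwa [e] at this
  have hη01 : η < η0 := hηlt.trans_le (min_le_left _ _)
  have hη11 : η < 1 := hηlt.trans_le (min_le_right _ _)
  have hdiff : ∀ u, |((1 - s) * a u + s * b u) - ((1 - s0) * a u + s0 * b u)| ≤
      η * ((1 - s0) * a u + s0 * b u) := by
    intro u
    have e1 : ((1 - s) * a u + s * b u) - ((1 - s0) * a u + s0 * b u) =
        (s - s0) * (b u - a u) := by ring
    rw [e1, abs_mul]
    have ha0 := path_cont_nonneg ha u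
    have hb0 := path_cont_nonneg hb u
    have e2 : |b u - a u| ≤ 2 * R * ‖u‖ := by
      rw [abs_le]
      have := hRa u
      have := hRb u
      have : 0 ≤ R * ‖u‖ := by positivity
      constructor <;> linarith
    have e3 : r * ‖u‖ ≤ (1 - s0) * a u + s0 * b u := by
      have f1 := mul_le_mul_of_nonneg_left (hra u) (by linarith [hs0.2] : (0 : ℝ) ≤ 1 - s0)
      have f2 := mul_le_mul_of_nonneg_left (hrb u) hs0.1
      linarith
    have e4 : |s - s0| * |b u - a u| ≤ |s - s0| * (2 * R * ‖u‖) :=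
      mul_le_mul_of_nonneg_left e2 (abs_nonneg _)
    have e5 : |s - s0| * (2 * R * ‖u‖) = η * (r * ‖u‖) := by
      rw [hηdef]; field_simp
    have e6 : η * (r * ‖u‖) ≤ η * ((1 - s0) * a u + s0 * b u) :=
      mul_le_mul_of_nonneg_left e3 hηnn
    linarith
  have hlow := path_cont_lower (hgood s0 hs0) (hgood s hs) (c := 1 - η) (by linarith) (by
    intro u
    have := (abs_le.1 (hdiff u)).1
    linarith) j
  have hupp := path_cont_upper (hgood s0 hs0) (hgood s hs) (c := 1 + η) (by linarith) (by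
    intro u
    have := (abs_le.1 (hdiff u)).2
    linarith) j
  have hl1 : 1 - δ ≤ (1 - η) ^ (n ^ j) := by
    have := hη (x := 1 - η) (by
      rw [Real.dist_eq]
      have : (1 - η) - 1 = -η := by ring
      rw [this, abs_neg, abs_of_nonneg hηnn]
      exact hη01)
    rw [Real.dist_eq, one_pow] at this
    have := (abs_lt.1 this).1
    linarith
  have hu1 : (1 + η) ^ (n ^ j) ≤ 1 + δ := by
    have := hη (x := 1 + η) (by
      rw [Real.dist_eq]
      have : (1 + η) - 1 = η := by ring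
      rw [this, abs_of_nonneg hηnn]
      exact hη01)
    rw [Real.dist_eq, one_pow] at this
    have := (abs_lt.1 this).2
    linarith
  rw [Real.dist_eq]
  refine hδ' _ (good_iter (hgood s hs) j) ?_
  intro u
  have hP0 := path_cont_nonneg (good_iter (hgood s0 hs0) j) u
  constructor
  · exact (mul_le_mul_of_nonneg_right hl1 hP0).trans (hlow u)
  · exact (hupp u).trans (mul_le_mul_of_nonneg_right hu1 hP0)

-- TARGET (prove this)
theorem main_fun (hn : 1 ≤ n) {Φ : (E (n + 1) → ℝ) → ℝ} (hi : Inv Φ) (hΦ : Cont Φ)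
    {a b : E (n + 1) → ℝ} (ha : ∀ j, a ∈ S j) (hb : ∀ j, b ∈ S j) {t : ℝ} (h1 : Φ a ≤ t) (h2 : t ≤ Φ b) :
    ∃ p, (∀ j, p ∈ S j) ∧ Φ p = t := by
  have hx : ∀ m : ℕ, ∃ x : E (n + 1) → ℝ, x ∈ S m ∧ Φ x = t := by
    intro m
    obtain ⟨a', ha', haa⟩ := ha m
    obtain ⟨b', hb', hbb⟩ := hb m
    have hc := path_cont hΦ m ha' hb'
    have hiv := intermediate_value_Icc (zero_le_one (α := ℝ)) hc
    have e0 : (fun u => (1 - (0 : ℝ)) * a' u + 0 * b' u) = a' := by
      funext u; ring
    have e1 : (fun u => (1 - (1 : ℝ)) * a' u + 1 * b' u) = b' := by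
      funext u; ring
    have ht : t ∈ Icc (Φ (Pm^[m] (fun u => (1 - (0 : ℝ)) * a' u + 0 * b' u)))
        (Φ (Pm^[m] (fun u => (1 - (1 : ℝ)) * a' u + 1 * b' u))) := by
      rw [e0, e1, ← haa, ← hbb]
      exact ⟨h1, h2⟩
    obtain ⟨s, ⟨hs0, hs1⟩, hs⟩ := hiv ht
    refine ⟨Pm^[m] (fun u => (1 - s) * a' u + s * b' u), ⟨_, ?_, rfl⟩, hs⟩
    have hs1' : 0 ≤ 1 - s := by linarith
    constructor
    · intro u v
      have h3 := mul_le_mul_of_nonneg_left (ha'.add u v) hs1'
      have h4 := mul_le_mul_of_nonneg_left (hb'.add u v) hs0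
      linarith
    · intro c u
      rw [ha'.smul, hb'.smul]; ring
    · obtain ⟨r1, R1, hr1, hb1⟩ := ha'.bd
      obtain ⟨r2, R2, hr2, hb2⟩ := hb'.bd
      refine ⟨(1 - s) * r1 + s * r2, (1 - s) * R1 + s * R2, ?_, fun u => ?_⟩
      · rcases hs0.lt_or_eq with h | h
        · have h3 := mul_pos h hr2
          have h4 := mul_nonneg hs1' hr1.le
          linarith
        · rw [← h]; linarith
      · have h3 := mul_le_mul_of_nonneg_left (hb1 u).1 hs1'
        have h4 := mul_le_mul_of_nonneg_left (hb1 u).2 hs1'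
        have h5 := mul_le_mul_of_nonneg_left (hb2 u).1 hs0
        have h6 := mul_le_mul_of_nonneg_left (hb2 u).2 hs0
        constructor <;> linarith
  choose x hxS hxt using hx
  obtain ⟨N, hN1, hN⟩ := position (n + 1)
  have hA : ∀ m, ∃ A : E (n + 1) ≃ₗ[ℝ] E (n + 1), Nice N (fun u => x m (A u)) :=
    fun m => hN (x m) (S_good (hxS m))
  choose A hA using hA
  have hall : ∀ᶠ m in Uf, Nice N ((fun m u => x m (A m u)) m) :=
    Filter.Eventually.of_forall hA
  obtain ⟨q, hq, hlim⟩ := nice_lim hall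
  refine ⟨q, fun j => ?_, ?_⟩
  · refine S_lim hn j (p := fun m u => x m (A m u)) ?_ hq hlim
    have hge : ∀ᶠ m in (Uf : Filter ℕ), j ≤ m := by
      have h3 : ∀ᶠ m in (cofinite : Filter ℕ), j ≤ m := by
        rw [Nat.cofinite_eq_atTop]
        exact eventually_ge_atTop j
      exact hyperfilter_le_cofinite h3
    filter_upwards [hge] with m hm
    exact ⟨hA m, S_comp hn (S_anti hm (hxS m)) (A m)⟩
  · by_contra hne
    have hε : 0 < |t - Φ q| := abs_pos.2 (sub_ne_zero.2 (Ne.symm hne))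
    obtain ⟨δ, hδ, hδq⟩ := hΦ q hq.1 _ hε
    have hun := nice_unif hall hq hlim hδ
    obtain ⟨m, hm⟩ := hun.exists
    have h3 := hδq (fun u => x m (A m u)) (hA m).1 (fun u => by
      have h4 := abs_le.1 (hm u)
      have h5 := mul_le_mul_of_nonneg_left (hq.2 u).1 hδ.le
      have h6 := h4.1
      have h7 := h4.2
      constructor <;> linarith)
    rw [hi (x m) (S_good (hxS m)) (A m), hxt m] at h3
    exact lt_irrefl _ h3

end Pool.Agent.Helper873.PBody
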