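import Mathlib
import Pool.Agent.Helper873.PBody.Defs
import Pool.Agent.Helper873.PBody.GB
import Pool.Agent.Helper873.PBody.GD

set_option autoImplicit false

open MeasureTheory Metric Set Filter Topology
open scoped Pointwise

namespace Pool.Agent.Helper873.PBody

variable {n : ℕ}

-- TARGET (prove this)
theorem bmx_ge (hn : 1 ≤ n) (p : E n → ℝ) :
    ∀ t ∈ {t : ℝ | ∃ A : E n ≃ₗ[ℝ] E n, ∀ u, ‖A u‖ ≤ p u ∧ p u ≤ t * ‖A u‖}, 1 ≤ t := by
  rintro t ⟨A, hA⟩
  obtain ⟨u, hu⟩ : ∃ u : E n, u ≠ 0 := by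
    refine ⟨EuclideanSpace.single ⟨0, hn⟩ 1, ?_⟩
    intro h
    have h2 : ‖(EuclideanSpace.single (⟨0, hn⟩ : Fin n) (1 : ℝ) : E n)‖ = 0 := by
      rw [h, norm_zero]
    simp at h2
  have h1 : 0 < ‖A u‖ := norm_pos_iff.mpr (by simpa using hu)
  have h2 := hA u
  by_contra h
  push Not at h
  nlinarith [h2.1.trans h2.2]

theorem bmx_ne {p : E n → ℝ} (hp : Good p) :
    {t : ℝ | ∃ A : E n ≃ₗ[ℝ] E n, ∀ u, ‖A u‖ ≤ p u ∧ p u ≤ t * ‖A u‖}.Nonempty := by
  obtain ⟨r, R, hr, h⟩ := hp.bd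
  refine ⟨R / r, LinearEquiv.smulOfNeZero ℝ (E n) r hr.ne', fun u => ?_⟩
  rw [LinearEquiv.smulOfNeZero_apply, norm_smul, Real.norm_of_nonneg hr.le]
  refine ⟨(h u).1, (h u).2.trans (le_of_eq ?_)⟩
  field_simp

theorem bmx_comp (hn : 1 ≤ n) {p q : E n → ℝ} (hp : Good p) (a b : ℝ) (ha : 0 < a) (hb : 0 < b)
    (h : ∀ u, a * p u ≤ q u ∧ q u ≤ b * p u) : bm q ≤ b / a * bm p := by
  have h1 : a / b * bm q ≤ bm p := by
    apply le_csInf (bmx_ne hp)
    rintro t ⟨A, hA⟩
    have h2 : b / a * t ∈ {t : ℝ | ∃ A : E n ≃ₗ[ℝ] E n, ∀ u, ‖A u‖ ≤ q u ∧ q u ≤ t * ‖A u‖} := by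
      refine ⟨A.trans (LinearEquiv.smulOfNeZero ℝ (E n) a ha.ne'), fun u => ?_⟩
      rw [LinearEquiv.trans_apply, LinearEquiv.smulOfNeZero_apply, norm_smul,
        Real.norm_of_nonneg ha.le]
      have h3 := mul_le_mul_of_nonneg_left (hA u).1 ha.le
      have h4 := mul_le_mul_of_nonneg_left (hA u).2 hb.le
      refine ⟨h3.trans (h u).1, ((h u).2.trans h4).trans (le_of_eq ?_)⟩
      field_simp
    have h5 : bm q ≤ b / a * t := csInf_le ⟨1, fun s hs => bmx_ge hn q s hs⟩ h2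
    have h6 := mul_le_mul_of_nonneg_left h5 (div_pos ha hb).le
    have h7 : a / b * (b / a * t) = t := by field_simp
    linarith
  have h8 := mul_le_mul_of_nonneg_left h1 (div_pos hb ha).le
  have h9 : b / a * (a / b * bm q) = bm q := by field_simp
  linarith

theorem bm_inv : Inv (bm (n := n)) := by
  intro p _ B
  unfold bm
  congr 1
  ext t
  constructor
  · rintro ⟨A, hA⟩
    exact ⟨B.symm.trans A, fun u => by simpa using hA (B.symm u)⟩
  · rintro ⟨A, hA⟩
    exact ⟨B.trans A, fun u => hA (B u)⟩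


-- TARGET (prove this)
theorem bm_cont : Cont (bm (n := n)) := by
  intro p hp ε hε
  rcases Nat.eq_zero_or_pos n with hn | hn
  · subst hn
    refine ⟨1, one_pos, fun q hq _ => ?_⟩
    have h0 : ∀ r : E 0 → ℝ, Good r → ∀ u, r u = 0 := by
      intro r hr u
      have hu : u = (0 : ℝ) • u := Subsingleton.elim _ _
      rw [hu, hr.smul, abs_zero, zero_mul]
    have hqp : q = p := by
      funext u
      rw [h0 q hq, h0 p hp]
    rw [hqp, sub_self, abs_zero]
    exact hε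
  · have hm : 1 ≤ bm p := le_csInf (bmx_ne hp) (bmx_ge hn p)
    have hm0 : 0 < bm p := by linarith
    refine ⟨min (1 / 2) (ε / (8 * bm p)), by positivity, fun q hq h => ?_⟩
    obtain ⟨δ, hδ⟩ : ∃ δ, δ = min (1 / 2) (ε / (8 * bm p)) := ⟨_, rfl⟩
    rw [← hδ] at h
    have hδ0 : 0 < δ := by rw [hδ]; positivity
    have hδ1 : δ ≤ 1 / 2 := by rw [hδ]; exact min_le_left _ _
    have hδ2 : δ * bm p ≤ ε / 8 := by
      have h1 : δ ≤ ε / (8 * bm p) := by rw [hδ]; exact min_le_right _ _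
      have h2 := mul_le_mul_of_nonneg_right h1 hm0.le
      have h3 : ε / (8 * bm p) * bm p = ε / 8 := by field_simp
      linarith
    have h1 := bmx_comp hn hp (1 - δ) (1 + δ) (by linarith) (by linarith) h
    have h2 := bmx_comp hn hq (1 / (1 + δ)) (1 / (1 - δ)) (by positivity)
      (by apply one_div_pos.mpr; linarith) (p := q) (q := p) (fun u => by
        obtain ⟨h3, h4⟩ := h u
        have hd1 : 0 < 1 + δ := by linarith
        have hd2 : 0 < 1 - δ := by linarith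
        constructor
        · rw [div_mul_eq_mul_div, one_mul, div_le_iff₀ hd1]; linarith
        · rw [div_mul_eq_mul_div, one_mul, le_div_iff₀ hd2]; linarith)
    have hd2 : 0 < 1 - δ := by linarith
    have hm' : 1 ≤ bm q := le_csInf (bmx_ne hq) (bmx_ge hn q)
    have e1 : (1 - δ) * bm q ≤ (1 + δ) * bm p := by
      rw [div_mul_eq_mul_div, le_div_iff₀ hd2] at h1
      linarith
    have e2 : (1 - δ) * bm p ≤ (1 + δ) * bm q := by
      have h5 : 1 / (1 - δ) / (1 / (1 + δ)) = (1 + δ) / (1 - δ) := by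
        field_simp
      rw [h5, div_mul_eq_mul_div, le_div_iff₀ hd2] at h2
      linarith
    rw [abs_lt]
    constructor
    · nlinarith
    · nlinarith


-- TARGET (prove this)
theorem bm_norm (hn : 1 ≤ n) {c : ℝ} (hc : 0 < c) : bm (fun u : E n => c * ‖u‖) = 1 := by
  apply IsLeast.csInf_eq
  constructor
  · refine ⟨LinearEquiv.smulOfNeZero ℝ (E n) c hc.ne', fun u => ?_⟩
    rw [LinearEquiv.smulOfNeZero_apply, norm_smul, Real.norm_of_nonneg hc.le, one_mul]
    exact ⟨le_rfl, le_rfl⟩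
  · exact fun t ht => bmx_ge hn _ t ht

theorem greedy_signs {F ι : Type*} [NormedAddCommGroup F] [InnerProductSpace ℝ F] [DecidableEq ι]
    (v : ι → F) (s : Finset ι) :
    ∃ ε : ι → ℝ, (∀ i, |ε i| = 1) ∧ ‖∑ i ∈ s, ε i • v i‖ ^ 2 ≤ ∑ i ∈ s, ‖v i‖ ^ 2 := by
  induction s using Finset.induction_on with
  | empty => exact ⟨fun _ => 1, fun _ => abs_one, by simp⟩
  | insert j s hj ih =>
    obtain ⟨ε, h1, h2⟩ := ih
    have hsum : ∀ c : ℝ, ∑ i ∈ insert j s, Function.update ε j c i • v i =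
        c • v j + ∑ i ∈ s, ε i • v i := by
      intro c
      rw [Finset.sum_insert hj, Function.update_self]
      congr 1
      refine Finset.sum_congr rfl fun i hi => ?_
      rw [Function.update_of_ne]
      rintro rfl
      exact hj hi
    have habs : ∀ c : ℝ, |c| = 1 → ∀ i, |Function.update ε j c i| = 1 := by
      intro c hc i
      by_cases h : i = j
      · subst h
        rw [Function.update_self]
        exact hc
      · rw [Function.update_of_ne h]
        exact h1 i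
    have hpar := parallelogram_law_with_norm ℝ (v j) (∑ i ∈ s, ε i • v i)
    rw [Finset.sum_insert hj]
    by_cases hc : ‖v j + ∑ i ∈ s, ε i • v i‖ ^ 2 ≤ ‖v j‖ ^ 2 + ∑ i ∈ s, ‖v i‖ ^ 2
    · refine ⟨Function.update ε j 1, habs 1 abs_one, ?_⟩
      rw [hsum, one_smul]
      exact hc
    · refine ⟨Function.update ε j (-1), habs (-1) (by simp), ?_⟩
      rw [hsum, neg_one_smul]
      push Not at hc
      have e : ‖-v j + ∑ i ∈ s, ε i • v i‖ = ‖v j - ∑ i ∈ s, ε i • v i‖ := by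
        rw [← norm_neg]
        congr 1
        abel
      rw [e]
      nlinarith

-- TARGET (prove this)
theorem bm_l1 (hn : 1 ≤ n) : bm (fun u : E n => ∑ i, |u i|) = √n := by
  have hmem : (√n : ℝ) ∈ {t : ℝ | ∃ A : E n ≃ₗ[ℝ] E n, ∀ u : E n,
      ‖A u‖ ≤ ∑ i, |u i| ∧ ∑ i, |u i| ≤ t * ‖A u‖} := by
    refine ⟨LinearEquiv.refl ℝ (E n), fun u => ?_⟩
    rw [LinearEquiv.refl_apply]
    have h0 : 0 ≤ ∑ i, |u i| := Finset.sum_nonneg fun i _ => abs_nonneg _
    have h1 : ‖u‖ ^ 2 = ∑ i, |u i| ^ 2 := by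
      rw [EuclideanSpace.norm_sq_eq]
      rfl
    constructor
    · have h2 : ‖u‖ ^ 2 ≤ (∑ i, |u i|) ^ 2 := by
        rw [h1]
        exact Finset.sum_sq_le_sq_sum_of_nonneg fun i _ => abs_nonneg _
      exact le_of_sq_le_sq h2 h0
    · have h2 : (∑ i, |u i|) ^ 2 ≤ (√n * ‖u‖) ^ 2 := by
        rw [mul_pow, Real.sq_sqrt (Nat.cast_nonneg n), h1]
        have := sq_sum_le_card_mul_sum_sq (s := (Finset.univ : Finset (Fin n)))
          (f := fun i => |u i|)
        simpa using this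
      exact le_of_sq_le_sq h2 (by positivity)
  have hlow : ∀ t ∈ {t : ℝ | ∃ A : E n ≃ₗ[ℝ] E n, ∀ u : E n,
      ‖A u‖ ≤ ∑ i, |u i| ∧ ∑ i, |u i| ≤ t * ‖A u‖}, √n ≤ t := by
    rintro t ⟨A, hA⟩
    obtain ⟨ε, h1, h2⟩ := greedy_signs (fun i : Fin n => A (EuclideanSpace.single i (1 : ℝ)))
      Finset.univ
    have h3 : ∑ i : Fin n, ‖A (EuclideanSpace.single i (1 : ℝ))‖ ^ 2 ≤ n := by
      have h4 : ∀ i ∈ (Finset.univ : Finset (Fin n)),
          ‖A (EuclideanSpace.single i (1 : ℝ))‖ ^ 2 ≤ 1 := by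
        intro i _
        have h5 := (hA (EuclideanSpace.single i (1 : ℝ))).1
        have h6 : ∑ j : Fin n, |(EuclideanSpace.single i (1 : ℝ) : E n) j| = 1 := by
          rw [Finset.sum_eq_single i]
          · simp
          · intro b _ hb
            simp [hb]
          · intro h
            exact absurd (Finset.mem_univ i) h
        rw [h6] at h5
        exact pow_le_one₀ (norm_nonneg _) h5
      calc _ ≤ ∑ i : Fin n, (1 : ℝ) := Finset.sum_le_sum h4
        _ = n := by simp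
    set u : E n := ∑ i, ε i • EuclideanSpace.single i (1 : ℝ) with hu
    have hu1 : ∀ j, u j = ε j := by
      intro j
      rw [hu]
      have e : (∑ i, ε i • (EuclideanSpace.single i (1 : ℝ) : E n)) j =
          ∑ i, ε i * (Pi.single i (1 : ℝ) : Fin n → ℝ) j := by simp
      rw [e, Finset.sum_eq_single j]
      · simp
      · intro b _ hb
        rw [Pi.single_eq_of_ne hb.symm, mul_zero]
      · intro h
        exact absurd (Finset.mem_univ j) h
    have hu2 : A u = ∑ i, ε i • A (EuclideanSpace.single i (1 : ℝ)) := by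
      rw [hu, map_sum]
      simp
    have hu3 : ∑ i, |u i| = n := by
      simp only [hu1, h1]
      simp
    have h7 := (hA u).2
    rw [hu3] at h7
    rw [← hu2] at h2
    have h8 : ‖A u‖ ^ 2 ≤ (√n) ^ 2 := by
      rw [Real.sq_sqrt (Nat.cast_nonneg n)]
      exact h2.trans h3
    have h9 : ‖A u‖ ≤ √n := le_of_sq_le_sq h8 (Real.sqrt_nonneg _)
    have hn' : (1 : ℝ) ≤ n := by exact_mod_cast hn
    have ht : 0 < t := by
      by_contra hc
      push Not at hc
      have := mul_nonpos_of_nonpos_of_nonneg hc (norm_nonneg (A u))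
      linarith
    have h10 : (n : ℝ) ≤ t * √n := h7.trans (mul_le_mul_of_nonneg_left h9 ht.le)
    have h11 : 0 < √(n : ℝ) := Real.sqrt_pos.2 (by linarith)
    have h12 : √(n : ℝ) * √n = n := Real.mul_self_sqrt (Nat.cast_nonneg n)
    by_contra hc
    push Not at hc
    have := mul_lt_mul_of_pos_right hc h11
    linarith
  unfold bm
  exact le_antisymm (csInf_le ⟨√n, hlow⟩ hmem) (le_csInf ⟨_, hmem⟩ hlow)

theorem bm_decomp_core {p : E n → ℝ} (hp : Good p) {U W : Submodule ℝ (E n)}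
    {K L : Set (E n)} (hK : K ⊆ U) (hL : L ⊆ W) (h : body p = K + L) {x y : E n}
    (hx : x ∈ Wᗮ) (hy : y ∈ Uᗮ) : p x + p y ≤ p (x + y) := by
  obtain ⟨z, hz, hzx⟩ := support hp x
  obtain ⟨z', hz', hzy⟩ := support hp y
  rw [h] at hz hz'
  obtain ⟨k, hk, l, hl, rfl⟩ := Set.mem_add.1 hz
  obtain ⟨k', hk', l', hl', rfl⟩ := Set.mem_add.1 hz'
  have hm : k + l' ∈ body p := by
    rw [h]
    exact Set.add_mem_add hk hl'
  have h1 := hm (x + y)
  have e1 : inner ℝ l x = 0 := Submodule.inner_right_of_mem_orthogonal (hL hl) hx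
  have e2 : inner ℝ l' x = 0 := Submodule.inner_right_of_mem_orthogonal (hL hl') hx
  have e3 : inner ℝ k y = 0 := Submodule.inner_right_of_mem_orthogonal (hK hk) hy
  have e4 : inner ℝ k' y = 0 := Submodule.inner_right_of_mem_orthogonal (hK hk') hy
  rw [inner_add_left] at hzx hzy h1
  rw [inner_add_right, inner_add_right] at h1
  linarith

-- TARGET (prove this)
theorem bm_decomp {p : E n → ℝ} (hp : Good p) {U W : Submodule ℝ (E n)} (hUW : IsCompl U W)
    (hU : U ≠ ⊥) (hW : W ≠ ⊥) {K L : Set (E n)} (hK : K ⊆ U) (hL : L ⊆ W) (h : body p = K + L) :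
    √2 ≤ bm p := by
  obtain ⟨r, R, hr, hb⟩ := hp.bd
  have hpos : ∀ x : E n, x ≠ 0 → 0 < p x := fun x hx =>
    lt_of_lt_of_le (mul_pos hr (norm_pos_iff.2 hx)) (hb x).1
  have hW' : Wᗮ ≠ ⊥ := by
    rw [Ne, Submodule.orthogonal_eq_bot_iff]
    intro hW1
    rw [hW1] at hUW
    exact hU (by simpa using hUW.disjoint.eq_bot)
  have hU' : Uᗮ ≠ ⊥ := by
    rw [Ne, Submodule.orthogonal_eq_bot_iff]
    intro hU1
    rw [hU1] at hUW
    exact hW (by simpa using hUW.disjoint.eq_bot)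
  obtain ⟨x, hx, hx0⟩ := Submodule.exists_mem_ne_zero_of_ne_bot hW'
  obtain ⟨y, hy, hy0⟩ := Submodule.exists_mem_ne_zero_of_ne_bot hU'
  have ha := hpos x hx0
  have hb' := hpos y hy0
  have hx' : p y • x ∈ Wᗮ := Submodule.smul_mem _ _ hx
  have hy' : p x • y ∈ Uᗮ := Submodule.smul_mem _ _ hy
  have hpx : p (p y • x) = p x * p y := by rw [hp.smul, abs_of_pos hb', mul_comm]
  have hpy : p (p x • y) = p x * p y := by rw [hp.smul, abs_of_pos ha]
  have hpy' : p (-(p x • y)) = p x * p y := by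
    have := hp.smul (-1) (p x • y)
    rw [neg_one_smul] at this
    rw [this, hpy]
    simp
  have h1 := bm_decomp_core hp hK hL h hx' hy'
  have h2 := bm_decomp_core hp hK hL h hx' (Submodule.neg_mem _ hy')
  rw [hpx, hpy] at h1
  rw [hpx, hpy'] at h2
  set c := p x * p y with hc
  have hc0 : 0 < c := mul_pos ha hb'
  unfold bm
  apply le_csInf
  · refine ⟨R / r, LinearEquiv.smulOfNeZero ℝ (E n) r hr.ne', fun u => ?_⟩
    have e : ‖(LinearEquiv.smulOfNeZero ℝ (E n) r hr.ne') u‖ = r * ‖u‖ := by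
      rw [LinearEquiv.smulOfNeZero_apply, norm_smul, Real.norm_eq_abs, abs_of_pos hr]
    rw [e]
    refine ⟨(hb u).1, ?_⟩
    have e2 : R / r * (r * ‖u‖) = R * ‖u‖ := by field_simp
    rw [e2]
    exact (hb u).2
  · rintro t ⟨A, hA⟩
    set X := p y • x with hX
    set Y := p x • y with hY
    have h3 := (hA (X + Y)).2
    have h4 := (hA (X + -Y)).2
    have h5 := (hA X).1
    have h6 := (hA Y).1
    rw [hpx] at h5
    rw [hpy] at h6
    rw [map_add] at h3
    rw [map_add, map_neg, ← sub_eq_add_neg] at h4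
    have hpar := parallelogram_law_with_norm ℝ (A X) (A Y)
    have ht : 0 < t := by
      by_contra hcc
      push Not at hcc
      have := mul_nonpos_of_nonpos_of_nonneg hcc (norm_nonneg (A X + A Y))
      linarith
    have h7 : c + c ≤ t * ‖A X + A Y‖ := h1.trans h3
    have h8 : c + c ≤ t * ‖A X - A Y‖ := h2.trans h4
    have h9 : (c + c) ^ 2 ≤ (t * ‖A X + A Y‖) ^ 2 := pow_le_pow_left₀ (by linarith) h7 2
    have h10 : (c + c) ^ 2 ≤ (t * ‖A X - A Y‖) ^ 2 := pow_le_pow_left₀ (by linarith) h8 2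
    have h11 : ‖A X‖ ^ 2 ≤ c ^ 2 := pow_le_pow_left₀ (norm_nonneg _) h5 2
    have h12 : ‖A Y‖ ^ 2 ≤ c ^ 2 := pow_le_pow_left₀ (norm_nonneg _) h6 2
    have h13 : 8 * c ^ 2 ≤ t ^ 2 * (4 * c ^ 2) := by
      calc 8 * c ^ 2 = (c + c) ^ 2 + (c + c) ^ 2 := by ring
        _ ≤ (t * ‖A X + A Y‖) ^ 2 + (t * ‖A X - A Y‖) ^ 2 := add_le_add h9 h10
        _ = t ^ 2 * (‖A X + A Y‖ ^ 2 + ‖A X - A Y‖ ^ 2) := by ring
        _ = t ^ 2 * (2 * (‖A X‖ ^ 2 + ‖A Y‖ ^ 2)) := by rw [hpar]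
        _ ≤ t ^ 2 * (4 * c ^ 2) := by
          apply mul_le_mul_of_nonneg_left _ (sq_nonneg t)
          nlinarith
    have hc2 : 0 < c ^ 2 := by positivity
    have h14 : 2 ≤ t ^ 2 := by
      by_contra hcc
      push Not at hcc
      have := mul_lt_mul_of_pos_right hcc hc2
      linarith
    exact Real.sqrt_le_iff.2 ⟨ht.le, h14⟩

end Pool.Agent.Helper873.PBody
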