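import Mathlib
import Pool.Agent.Helper873.PBody.Defs
import Pool.Agent.Helper873.PBody.GC

set_option autoImplicit false

open MeasureTheory Metric Set Filter Topology
open scoped Pointwise

namespace Pool.Agent.Helper873.PBody

variable {n : ℕ}

-- TARGET (prove this)
theorem good_l1 (hn : 1 ≤ n) : Good (fun u : E n => ∑ i, |u i|) := by
  refine ⟨?_, ?_, ⟨1, n, one_pos, ?_⟩⟩
  · intro u v
    simp only
    rw [← Finset.sum_add_distrib]
    refine Finset.sum_le_sum fun i _ => ?_
    exact abs_add_le _ _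
  · intro c u
    simp only
    rw [Finset.mul_sum]
    refine Finset.sum_congr rfl fun i _ => ?_
    rw [PiLp.smul_apply, smul_eq_mul, abs_mul]
  · intro u
    constructor
    · rw [one_mul]
      have h1 : u = ∑ i, EuclideanSpace.single i (u i) := by
        ext j
        simp
      calc ‖u‖ = ‖∑ i, EuclideanSpace.single i (u i)‖ := by rw [← h1]
        _ ≤ ∑ i, ‖(EuclideanSpace.single i (u i) : E n)‖ := norm_sum_le _ _
        _ = ∑ i, |u i| := by simp
    · calc ∑ i, |u i| ≤ ∑ _i : Fin n, ‖u‖ :=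
            Finset.sum_le_sum fun i _ => by
              have := PiLp.norm_apply_le u i
              rwa [Real.norm_eq_abs] at this
        _ = n * ‖u‖ := by simp

-- TARGET (prove this)
theorem good_norm : Good (fun u : E n => ‖u‖) :=
  ⟨fun u v => norm_add_le u v, fun c u => by simp [norm_smul],
    ⟨1, 1, one_pos, fun u => by simp⟩⟩

theorem j21221_bx (m : ℕ) (s : Fin m → Set ℝ) (hs : ∀ i, MeasurableSet (s i)) :
    volume {x : E m | ∀ i, x i ∈ s i} = ∏ i, volume (s i) := by
  have h : {x : E m | ∀ i, x i ∈ s i} = (WithLp.ofLp) ⁻¹' (Set.univ.pi s) := by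
    ext x; simp
  rw [h, (PiLp.volume_preserving_ofLp (Fin m)).measure_preimage
    (MeasurableSet.univ_pi hs).nullMeasurableSet, volume_pi_pi]

theorem j21221_bxm (m : ℕ) (s : Fin m → Set ℝ) (hs : ∀ i, MeasurableSet (s i)) :
    MeasurableSet {x : E m | ∀ i, x i ∈ s i} := by
  have h : {x : E m | ∀ i, x i ∈ s i} = ⋂ i, (fun x : E m => x i) ⁻¹' (s i) := by
    ext x; simp
  rw [h]
  refine MeasurableSet.iInter fun i => ?_
  have : Continuous (fun x : E m => x i) := by fun_prop
  exact this.measurable (hs i)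

theorem j21221_prod (n : ℕ) (i : Fin (n + 1)) (a b : ENNReal) :
    (∏ j : Fin (n + 1), if j = i then a else b) = a * b ^ n := by
  rw [Fin.prod_univ_succAbove _ i]
  simp [Fin.succAbove_ne]

/-- the cube -/
def j21221_Q (n : ℕ) : Set (E n) := {x | ∀ i, x i ∈ Icc (-1 : ℝ) 1}

theorem j21221_body : body (fun v : E n => ∑ i, |v i|) = j21221_Q n := by
  ext x
  constructor
  · intro h i
    have h1 := h (EuclideanSpace.single i 1)
    have h2 := h (EuclideanSpace.single i (-1))
    have e1 : ∀ c : ℝ, inner ℝ x (EuclideanSpace.single i c) = c * x i := by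
      intro c
      simp [EuclideanSpace.inner_single_right]
    have e2 : ∀ c : ℝ, ∑ j, |(EuclideanSpace.single i c : E n) j| = |c| := by
      intro c
      rw [Finset.sum_eq_single i]
      · simp
      · intro b _ hb
        simp [hb]
      · intro h; exact absurd (Finset.mem_univ i) h
    rw [e1] at h1 h2
    simp only [e2] at h1 h2
    simp only [abs_one, abs_neg] at h1 h2
    constructor <;> linarith
  · intro h u
    have e1 : inner ℝ x u = ∑ i, x i * u i := by
      simp [PiLp.inner_apply, mul_comm]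
    rw [e1]
    refine Finset.sum_le_sum fun i _ => ?_
    have h1 : |x i| ≤ 1 := abs_le.2 (h i)
    calc x i * u i ≤ |x i * u i| := le_abs_self _
      _ = |x i| * |u i| := abs_mul _ _
      _ ≤ 1 * |u i| := mul_le_mul_of_nonneg_right h1 (abs_nonneg _)
      _ = |u i| := one_mul _

theorem j21221_volQ (n : ℕ) : volume (j21221_Q (n + 1)) = 2 ^ (n + 1) := by
  unfold j21221_Q
  rw [j21221_bx (n + 1) (fun _ => Icc (-1 : ℝ) 1) (fun _ => measurableSet_Icc)]
  simp only [Real.volume_Icc, Finset.prod_const, Finset.card_univ, Fintype.card_fin]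
  norm_num

theorem j21221_VQ (n : ℕ) : V (j21221_Q (n + 1)) = 2 ^ (n + 1) := by
  unfold V
  rw [j21221_volQ]
  simp

theorem j21221_seg {u y : E n} (hy : y ∈ segment ℝ 0 u) : ∃ t : ℝ, 0 ≤ t ∧ t ≤ 1 ∧ y = t • u := by
  rw [segment_eq_image] at hy
  obtain ⟨t, ht, rfl⟩ := hy
  exact ⟨t, ht.1, ht.2, by simp⟩

theorem j21221_finite (u : E (n + 1)) : volume (j21221_Q (n + 1) + segment ℝ 0 u) < ⊤ := by
  have hsub : j21221_Q (n + 1) + segment ℝ 0 u ⊆
      {x : E (n + 1) | ∀ i, x i ∈ Icc (-(1 + |u i|)) (1 + |u i|)} := by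
    rintro _ ⟨x, hx, y, hy, rfl⟩ i
    obtain ⟨t, ht0, ht1, rfl⟩ := j21221_seg hy
    have h1 := hx i
    have h2 : |t * u i| ≤ |u i| := by
      rw [abs_mul, abs_of_nonneg ht0]
      have := abs_nonneg (u i)
      nlinarith
    have h3 := abs_le.1 h2
    show x i + t * u i ∈ _
    constructor
    · linarith [h1.1, h3.1]
    · linarith [h1.2, h3.2]
  refine (measure_mono hsub).trans_lt ?_
  rw [j21221_bx (n + 1) (fun i => Icc (-(1 + |u i|)) (1 + |u i|)) (fun _ => measurableSet_Icc)]
  refine ENNReal.prod_lt_top fun i _ => ?_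
  rw [Real.volume_Icc]
  exact ENNReal.ofReal_lt_top

theorem j21221_Gei (i : Fin (n + 1)) :
    G (j21221_Q (n + 1)) (EuclideanSpace.single i (1 : ℝ)) ≤ 2 ^ n := by
  have hsub : j21221_Q (n + 1) + segment ℝ 0 (EuclideanSpace.single i (1 : ℝ)) ⊆
      {x : E (n + 1) | ∀ j, x j ∈ (if j = i then Icc (-1 : ℝ) 2 else Icc (-1 : ℝ) 1)} := by
    rintro _ ⟨x, hx, y, hy, rfl⟩ j
    obtain ⟨t, ht0, ht1, rfl⟩ := j21221_seg hy
    have h1 := hx j
    by_cases hj : j = i
    · subst hj
      rw [if_pos rfl]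
      have : (x + t • EuclideanSpace.single j (1 : ℝ) : E (n + 1)) j = x j + t := by simp
      rw [this]
      exact ⟨by linarith [h1.1], by linarith [h1.2]⟩
    · rw [if_neg hj]
      have : (x + t • EuclideanSpace.single i (1 : ℝ) : E (n + 1)) j = x j := by simp [hj]
      rw [this]
      exact h1
  have hvol : volume {x : E (n + 1) | ∀ j, x j ∈ (if j = i then Icc (-1 : ℝ) 2
      else Icc (-1 : ℝ) 1)} = 3 * 2 ^ n := by
    rw [j21221_bx (n + 1) (fun j => if j = i then Icc (-1 : ℝ) 2 else Icc (-1 : ℝ) 1)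
      (fun j => by split_ifs <;> exact measurableSet_Icc)]
    have : ∀ j : Fin (n + 1), volume (if j = i then Icc (-1 : ℝ) 2 else Icc (-1 : ℝ) 1) =
        if j = i then 3 else 2 := by
      intro j
      split_ifs <;> rw [Real.volume_Icc] <;> norm_num
    simp only [this]
    rw [j21221_prod]
  have h1 : V (j21221_Q (n + 1) + segment ℝ 0 (EuclideanSpace.single i (1 : ℝ))) ≤ 3 * 2 ^ n := by
    unfold V
    have h2 := measure_mono (μ := volume) hsub
    rw [hvol] at h2
    have h3 := ENNReal.toReal_mono (by finiteness) h2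
    simpa using h3
  unfold G
  rw [j21221_VQ]
  have : (2 : ℝ) ^ (n + 1) = 2 * 2 ^ n := by ring
  rw [this]
  linarith

/-- the pieces of the complement of the cube in the swept body -/
def j21221_D (u : E (n + 1)) (i : Fin (n + 1)) : Set (E (n + 1)) :=
  {y | ((y i - u i / |u i|) / u i) ∈ Ioc (0 : ℝ) 1 ∧
    ∀ j, j ≠ i → (y j - ((y i - u i / |u i|) / u i) * u j) ∈ Ioo (-1 : ℝ) 1}

/-- the linear map straightening a piece -/
noncomputable def j21221_T (u : E (n + 1)) (i : Fin (n + 1)) : E (n + 1) →ₗ[ℝ] E (n + 1) :=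
  LinearMap.transvection (EuclideanSpace.proj (𝕜 := ℝ) i : E (n + 1) →L[ℝ] ℝ).toLinearMap
    ((u i)⁻¹ • (EuclideanSpace.single i (1 : ℝ) - u))

theorem j21221_T_det (u : E (n + 1)) (i : Fin (n + 1)) (hi : u i ≠ 0) :
    LinearMap.det (j21221_T u i) = (u i)⁻¹ := by
  unfold j21221_T
  rw [LinearMap.transvection.det]
  simp
  field_simp
  ring

theorem j21221_T_i (u y : E (n + 1)) (i : Fin (n + 1)) (hi : u i ≠ 0) :
    j21221_T u i y i = y i / u i := by
  unfold j21221_T
  rw [LinearMap.transvection.apply]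
  simp
  field_simp
  ring

theorem j21221_T_j (u y : E (n + 1)) (i j : Fin (n + 1)) (hij : j ≠ i) :
    j21221_T u i y j = y j - y i / u i * u j := by
  unfold j21221_T
  rw [LinearMap.transvection.apply]
  simp [hij]
  ring

theorem j21221_D_vol (u : E (n + 1)) (i : Fin (n + 1)) (hi : u i ≠ 0) :
    MeasurableSet (j21221_D u i) ∧
      volume (j21221_D u i) = ENNReal.ofReal |u i| * 2 ^ n := by
  set B : Set (E (n + 1)) := {x | ∀ j, x j ∈ (if j = i then Ioc (0 : ℝ) 1 else Ioo (-1 : ℝ) 1)}
    with hB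
  have hBm : MeasurableSet B := j21221_bxm (n + 1)
    (fun j => if j = i then Ioc (0 : ℝ) 1 else Ioo (-1 : ℝ) 1)
    (fun j => by split_ifs; exacts [measurableSet_Ioc, measurableSet_Ioo])
  have hBv : volume B = 2 ^ n := by
    rw [hB, j21221_bx (n + 1) (fun j => if j = i then Ioc (0 : ℝ) 1 else Ioo (-1 : ℝ) 1)
      (fun j => by split_ifs; exacts [measurableSet_Ioc, measurableSet_Ioo])]
    have : ∀ j : Fin (n + 1), volume (if j = i then Ioc (0 : ℝ) 1 else Ioo (-1 : ℝ) 1) =
        if j = i then 1 else 2 := by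
      intro j
      split_ifs
      · rw [Real.volume_Ioc]; norm_num
      · rw [Real.volume_Ioo]; norm_num
    simp only [this]
    rw [j21221_prod, one_mul]
  have hD : j21221_D u i = (fun y => y + (-(EuclideanSpace.single i (u i / |u i|)))) ⁻¹'
      (j21221_T u i ⁻¹' B) := by
    ext y
    simp only [Set.mem_preimage, hB, Set.mem_ofPred_eq]
    have ei : (y + (-(EuclideanSpace.single i (u i / |u i|))) : E (n + 1)) i =
        y i - u i / |u i| := by simp [sub_eq_add_neg]
    have ej : ∀ j, j ≠ i → (y + (-(EuclideanSpace.single i (u i / |u i|))) : E (n + 1)) j =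
        y j := by
      intro j hj
      simp [hj]
    constructor
    · rintro ⟨h1, h2⟩ j
      by_cases hj : j = i
      · subst hj
        rw [if_pos rfl, j21221_T_i _ _ _ hi, ei]
        exact h1
      · rw [if_neg hj, j21221_T_j _ _ _ _ hj, ei, ej j hj]
        exact h2 j hj
    · intro h
      refine ⟨?_, fun j hj => ?_⟩
      · have := h i
        rw [if_pos rfl, j21221_T_i _ _ _ hi, ei] at this
        exact this
      · have := h j
        rw [if_neg hj, j21221_T_j _ _ _ _ hj, ei, ej j hj] at this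
        exact this
  have hTc : Continuous (j21221_T u i) := LinearMap.continuous_of_finiteDimensional _
  constructor
  · rw [hD]
    exact (measurable_add_const _) (hTc.measurable hBm)
  · have hdet : LinearMap.det (j21221_T u i) ≠ 0 := by
      rw [j21221_T_det u i hi]; exact inv_ne_zero hi
    rw [hD, measure_preimage_add_right, Measure.addHaar_preimage_linearMap volume hdet, hBv,
      j21221_T_det u i hi, inv_inv]

theorem j21221_lower (u : E (n + 1)) :
    2 ^ n * ∑ i, |u i| ≤ G (j21221_Q (n + 1)) u := by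
  classical
  set S : Finset (Fin (n + 1)) := Finset.univ.filter (fun i => u i ≠ 0) with hS
  have hSmem : ∀ i, i ∈ S ↔ u i ≠ 0 := by intro i; simp [hS]
  have hσ : ∀ i, u i ≠ 0 → (u i / |u i|) * u i = |u i| ∧ (u i / |u i|) * (u i / |u i|) = 1 := by
    intro i hi
    have h1 : |u i| ≠ 0 := abs_ne_zero.2 hi
    have h2 : u i * u i = |u i| * |u i| := (abs_mul_abs_self _).symm
    constructor
    · field_simp
      nlinarith
    · field_simp
      nlinarith
  -- a point of a piece
  have hpt : ∀ i, u i ≠ 0 → ∀ y ∈ j21221_D u i, ∃ s : ℝ, 0 < s ∧ s ≤ 1 ∧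
      y i - s * u i = u i / |u i| ∧ ∀ j, j ≠ i → |y j - s * u j| < 1 := by
    intro i hi y hy
    refine ⟨(y i - u i / |u i|) / u i, hy.1.1, hy.1.2, ?_, fun j hj => abs_lt.2 (hy.2 j hj)⟩
    field_simp
    ring
  have habs : ∀ i, u i ≠ 0 → |(u i / |u i|)| = 1 := by
    intro i hi
    rw [abs_div, abs_abs, div_self (abs_ne_zero.2 hi)]
  have hsub : j21221_Q (n + 1) ∪ (⋃ i ∈ S, j21221_D u i) ⊆
      j21221_Q (n + 1) + segment ℝ 0 u := by
    rintro y (hy | hy)
    · exact ⟨y, hy, 0, left_mem_segment ℝ 0 u, add_zero y⟩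
    · simp only [Set.mem_iUnion] at hy
      obtain ⟨i, hi, hy⟩ := hy
      have hi' := (hSmem i).1 hi
      obtain ⟨s, hs0, hs1, hs2, hs3⟩ := hpt i hi' y hy
      refine ⟨y - s • u, ?_, s • u, ?_, sub_add_cancel y _⟩
      · intro j
        show y j - s * u j ∈ _
        by_cases hj : j = i
        · subst hj
          rw [hs2]
          exact abs_le.1 (habs j hi').le
        · exact abs_le.1 (hs3 j hj).le
      · rw [segment_eq_image]
        exact ⟨s, ⟨hs0.le, hs1⟩, by simp⟩
  have hdisjQ : Disjoint (j21221_Q (n + 1)) (⋃ i ∈ S, j21221_D u i) := by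
    rw [Set.disjoint_left]
    intro y hyQ hy
    simp only [Set.mem_iUnion] at hy
    obtain ⟨i, hi, hy⟩ := hy
    have hi' := (hSmem i).1 hi
    obtain ⟨s, hs0, hs1, hs2, hs3⟩ := hpt i hi' y hy
    have h1 : y i = s * u i + u i / |u i| := by linarith
    have h2 : (u i / |u i|) * y i = s * |u i| + 1 := by
      rw [h1, mul_add, (hσ i hi').2]
      have := (hσ i hi').1
      nlinarith
    have h3 : |(u i / |u i|) * y i| ≤ 1 := by
      rw [abs_mul, habs i hi', one_mul]
      exact abs_le.2 (hyQ i)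
    have h4 := (abs_le.1 h3).2
    have h5 : 0 < s * |u i| := mul_pos hs0 (abs_pos.2 hi')
    linarith
  have hdisj : (S : Set (Fin (n + 1))).PairwiseDisjoint (j21221_D u) := by
    intro i hi j hj hij
    have hi' := (hSmem i).1 hi
    have hj' := (hSmem j).1 hj
    rw [Function.onFun, Set.disjoint_left]
    intro y hyi hyj
    obtain ⟨s, hs0, hs1, hs2, hs3⟩ := hpt i hi' y hyi
    obtain ⟨t, ht0, ht1, ht2, ht3⟩ := hpt j hj' y hyj
    have key : ∀ (k : Fin (n + 1)) (a b : ℝ), u k ≠ 0 → b ≤ a → y k - a * u k = u k / |u k| →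
        |y k - b * u k| < 1 → False := by
      intro k a b hk hab h1 h2
      have h3 : y k - b * u k = u k / |u k| + (a - b) * u k := by linarith
      have h4 : (u k / |u k|) * (y k - b * u k) = 1 + (a - b) * |u k| := by
        rw [h3, mul_add, (hσ k hk).2]
        have := (hσ k hk).1
        nlinarith
      have h5 : |(u k / |u k|) * (y k - b * u k)| < 1 := by
        rw [abs_mul, habs k hk, one_mul]
        exact h2
      rw [h4] at h5
      have h6 := (abs_lt.1 h5).2
      have h7 : 0 ≤ (a - b) * |u k| := mul_nonneg (by linarith) (abs_nonneg _)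
      linarith
    rcases le_total s t with hst | hst
    · exact key j t s hj' hst ht2 (hs3 j (Ne.symm hij))
    · exact key i s t hi' hst hs2 (ht3 i hij)
  have hmeas : ∀ i ∈ S, MeasurableSet (j21221_D u i) := fun i hi =>
    (j21221_D_vol u i ((hSmem i).1 hi)).1
  have hvol : volume (j21221_Q (n + 1) ∪ (⋃ i ∈ S, j21221_D u i)) =
      2 ^ (n + 1) + ∑ i ∈ S, ENNReal.ofReal |u i| * 2 ^ n := by
    rw [measure_union hdisjQ (Finset.measurableSet_biUnion S hmeas), j21221_volQ,
      measure_biUnion_finset hdisj hmeas]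
    congr 1
    exact Finset.sum_congr rfl fun i hi => (j21221_D_vol u i ((hSmem i).1 hi)).2
  have hle : (2 : ENNReal) ^ (n + 1) + ∑ i ∈ S, ENNReal.ofReal |u i| * 2 ^ n ≤
      volume (j21221_Q (n + 1) + segment ℝ 0 u) := by
    rw [← hvol]
    exact measure_mono hsub
  have hr := ENNReal.toReal_mono (j21221_finite u).ne hle
  have hto : ((2 : ENNReal) ^ (n + 1) + ∑ i ∈ S, ENNReal.ofReal |u i| * 2 ^ n).toReal =
      2 ^ (n + 1) + ∑ i ∈ S, |u i| * 2 ^ n := by
    rw [ENNReal.toReal_add (by finiteness) (by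
      refine ENNReal.sum_ne_top.2 fun i _ => ?_
      finiteness), ENNReal.toReal_sum (fun i _ => by finiteness)]
    congr 1
    · simp
  rw [hto] at hr
  have hsum : ∑ i ∈ S, |u i| * 2 ^ n = 2 ^ n * ∑ i, |u i| := by
    rw [Finset.mul_sum, hS, Finset.sum_filter]
    refine Finset.sum_congr rfl fun i _ => ?_
    by_cases hi : u i = 0
    · simp [hi]
    · rw [if_pos hi, mul_comm]
  rw [hsum] at hr
  unfold G
  rw [j21221_VQ]
  unfold V
  linarith

-- TARGET (prove this)
theorem Pm_l1 (u : E (n + 1)) : Pm (fun v : E (n + 1) => ∑ i, |v i|) u = 2 ^ n * ∑ i, |u i| := by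
  have hgood := good_l1 (n := n + 1) (by omega)
  have hconv := body_convex (fun v : E (n + 1) => ∑ i, |v i|)
  have hcomp := body_compact hgood
  unfold Pm
  refine le_antisymm ?_ ?_
  · have h0 : G (body (fun v : E (n + 1) => ∑ i, |v i|)) 0 = 0 := by
      have := G_smul (body (fun v : E (n + 1) => ∑ i, |v i|)) hconv hcomp 0 0
      simpa using this
    have h1 : u = ∑ i, (u i) • (EuclideanSpace.single i (1 : ℝ) : E (n + 1)) := by
      ext j
      simp [Pi.single_apply]
    have h2 := Finset.le_sum_of_subadditive (G (body (fun v : E (n + 1) => ∑ i, |v i|))) h0.le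
      (G_add _ hconv hcomp) Finset.univ
      (fun i => (u i) • (EuclideanSpace.single i (1 : ℝ) : E (n + 1)))
    rw [← h1] at h2
    refine h2.trans ?_
    rw [Finset.mul_sum]
    refine Finset.sum_le_sum fun i _ => ?_
    rw [G_smul _ hconv hcomp, j21221_body, mul_comm]
    exact mul_le_mul_of_nonneg_right (j21221_Gei i) (abs_nonneg _)
  · rw [j21221_body]
    exact j21221_lower u

-- TARGET (prove this)
theorem mem_of_eig (hn : 1 ≤ n) {p : E (n + 1) → ℝ} (hp : Good p) {c : ℝ} (hc : 0 < c)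
    (hpc : ∀ u, Pm p u = c * p u) (j : ℕ) : p ∈ S j := by
  have key : ∀ j : ℕ, ∃ C : ℝ, 0 < C ∧ Pm^[j] p = fun u => C * p u := by
    intro j
    induction j with
    | zero => exact ⟨1, one_pos, by funext u; simp⟩
    | succ j ih =>
      obtain ⟨C, hC, h⟩ := ih
      refine ⟨C ^ n * c, by positivity, ?_⟩
      rw [Function.iterate_succ_apply', h]
      funext u
      rw [Pm_const_mul hp hC, hpc]
      ring
  obtain ⟨C, hC, h⟩ := key j
  have h1 : Pm^[j] p ∈ S j := ⟨p, hp, rfl⟩
  have h2 := S_comp hn h1 (LinearEquiv.smulOfNeZero ℝ (E (n + 1)) C⁻¹ (inv_ne_zero hC.ne'))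
  have h3 : (fun u => Pm^[j] p
      ((LinearEquiv.smulOfNeZero ℝ (E (n + 1)) C⁻¹ (inv_ne_zero hC.ne')) u)) = p := by
    funext u
    rw [h]
    show C * p (C⁻¹ • u) = p u
    rw [hp.smul, abs_of_pos (inv_pos.2 hC)]
    field_simp
  rw [h3] at h2
  exact h2


theorem l1_mem (hn : 1 ≤ n) (j : ℕ) : (fun v : E (n + 1) => ∑ i, |v i|) ∈ S j := by
  exact mem_of_eig hn (good_l1 (n := n + 1) (by omega)) (by positivity : (0 : ℝ) < 2 ^ n) Pm_l1 j

-- TARGET (prove this)
theorem norm_mem (hn : 1 ≤ n) (j : ℕ) : (fun v : E (n + 1) => ‖v‖) ∈ S j := by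
  obtain ⟨c, hc, h⟩ := Pm_norm (n := n)
  exact mem_of_eig hn (good_norm (n := n + 1)) hc h j

end Pool.Agent.Helper873.PBody
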