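import Mathlib
import Pool.Agent.Helper873.PBody.Defs
import Pool.Agent.Helper873.PBody.GC
import Pool.Agent.Helper873.PBody.GB
import Pool.Agent.Helper873.PBody.GA

set_option autoImplicit false

open MeasureTheory Metric Set Filter Topology
open scoped Pointwise

namespace Pool.Agent.Helper873.PBody

variable {n : ℕ}

-- TARGET (prove this)
theorem isBody_body {p : E (n + 1) → ℝ} (hp : Good p) : IsBody (body p) :=
  ⟨body_convex p, body_compact hp, body_interior hp⟩

-- TARGET (prove this)
theorem isProjBody_body {p : E (n + 1) → ℝ} (hp : Good p) : IsProjBody (body p) (body (Pm p)) := by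
  intro u hu
  have h1 : bright (body p) u = Pm p u :=
    (G_unit (body p) (body_convex p) (body_compact hp) u hu).symm
  rw [h1]
  constructor
  · rintro _ ⟨x, hx, rfl⟩
    exact hx u
  · intro b hb
    obtain ⟨x, hx, hxu⟩ := support (Pm_good hp) u
    rw [← hxu]
    exact hb ⟨x, hx, rfl⟩

-- TARGET (prove this)
theorem eq_of_isProjBody {K M : Set (E (n + 1))} (hK : IsBody K) (hM : IsBody M) (h : IsProjBody K M) :
    M = body (G K) := by
  apply body_of_lub hM.1 hM.2.1 (G K) (G_good K hK.1 hK.2.1 hK.2.2)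
  intro u hu
  rw [G_unit K hK.1 hK.2.1 u hu]
  exact h u hu

-- TARGET (prove this)
theorem body_inj {p q : E n → ℝ} (hp : Good p) (hq : Good q) (h : body p = body q) : p = q := by
  funext u
  apply le_antisymm
  · obtain ⟨x, hx, hxu⟩ := support hp u
    rw [← hxu]
    rw [h] at hx
    exact hx u
  · obtain ⟨x, hx, hxu⟩ := support hq u
    rw [← hxu]
    rw [← h] at hx
    exact hx u

theorem j21682_iter (m : ℕ) : ∀ q : E (n + 1) → ℝ, Good q →
    IsIter m (body q) (body (Pm^[m] q)) := by
  induction m with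
  | zero => intro q _; rfl
  | succ m ih =>
    intro q hq
    rw [Function.iterate_succ_apply]
    exact ⟨body (Pm q), isBody_body (Pm_good hq), isProjBody_body hq, ih (Pm q) (Pm_good hq)⟩

theorem j21682_iter2 (m : ℕ) : ∀ (q : E (n + 1) → ℝ) (K : Set (E (n + 1))), Good q →
    IsIter m (body q) K → K = body (Pm^[m] q) := by
  induction m with
  | zero => intro q K _ h; exact h
  | succ m ih =>
    intro q K hq h
    obtain ⟨M, hM, hqM, hMK⟩ := h
    rw [Function.iterate_succ_apply]
    have h1 : M = body (Pm q) := eq_of_isProjBody (isBody_body hq) hM hqM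
    rw [h1] at hMK
    exact ih (Pm q) K (Pm_good hq) hMK

-- TARGET (prove this)
theorem inClass_body {p : E (n + 1) → ℝ} (hp : ∀ j, p ∈ S j) : InClass (body p) := by
  refine ⟨isBody_body (S_good (hp 0)), fun m => ?_⟩
  obtain ⟨q, hq, rfl⟩ := hp m
  exact ⟨body q, isBody_body hq, j21682_iter m q hq⟩

-- TARGET (prove this)
theorem exists_of_inClass {K : Set (E (n + 1))} (hK : InClass K) : ∃ p, (∀ j, p ∈ S j) ∧ K = body p := by
  have key : ∀ m : ℕ, ∃ q : E (n + 1) → ℝ, Good q ∧ K = body (Pm^[m] q) := by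
    intro m
    obtain ⟨K', hK', M, hM, hKM, hMK⟩ := hK.2 (m + 1)
    have h1 : M = body (G K') := eq_of_isProjBody hK' hM hKM
    have h2 : Good (G K') := G_good K' hK'.1 hK'.2.1 hK'.2.2
    rw [h1] at hMK
    exact ⟨G K', h2, j21682_iter2 m (G K') K h2 hMK⟩
  obtain ⟨p, hp, hKp⟩ := key 0
  refine ⟨p, fun j => ?_, hKp⟩
  obtain ⟨q, hq, hKq⟩ := key j
  refine ⟨q, hq, ?_⟩
  exact body_inj hp (good_iter hq j) (hKp.symm.trans hKq)

end Pool.Agent.Helper873.PBody
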