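import Mathlib
import Pool.Agent.Helper873.PBody.Defs
import Pool.Agent.Helper873.PBody.GI
import Pool.Agent.Helper873.PBody.GG

set_option autoImplicit false

open MeasureTheory Metric Set Filter Topology
open scoped Pointwise

namespace Pool.Agent.Helper873.PBody

variable {n : ℕ}

-- TARGET (prove this)
theorem distBall_body {p : E (n + 1) → ℝ} (hp : Good p) : distBall (body p) = bm p := by
  unfold distBall bm
  congr 1
  ext t
  simp only [Set.mem_ofPred_eq]
  constructor
  · rintro ⟨ht, A1, h1, h2⟩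
    obtain ⟨B1, hB1, -⟩ := exists_adj A1
    have hadj : ∀ u y, inner ℝ (B1.symm u) y = inner ℝ u (A1 y) := by
      intro u y
      rw [← hB1 (B1.symm u) y, LinearEquiv.apply_symm_apply]
    refine ⟨B1.symm, fun u => ⟨?_, ?_⟩⟩
    · by_cases hu : B1.symm u = 0
      · have h0 : (A1 0) ∈ body p := h1 ⟨0, by simp, rfl⟩
        have h3 := h0 u
        rw [map_zero, inner_zero_left] at h3
        rw [hu, norm_zero]
        exact h3
      · have hn : ‖B1.symm u‖ ≠ 0 := norm_ne_zero_iff.2 hu
        have h0 : (A1 (‖B1.symm u‖⁻¹ • B1.symm u)) ∈ body p := h1 ⟨_, by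
          rw [mem_closedBall_zero_iff, norm_smul, norm_inv, norm_norm, inv_mul_cancel₀ hn], rfl⟩
        have h3 := h0 u
        rw [real_inner_comm, ← hadj, inner_smul_right, real_inner_self_eq_norm_sq] at h3
        have h4 : ‖B1.symm u‖⁻¹ * ‖B1.symm u‖ ^ 2 = ‖B1.symm u‖ := by
          field_simp
        rwa [h4] at h3
    · obtain ⟨x, hx, hxu⟩ := support hp u
      obtain ⟨y, hy, hyx⟩ := h2 hx
      rw [mem_closedBall_zero_iff] at hy
      simp only at hyx
      rw [← hxu, ← hyx, inner_smul_left, real_inner_comm, ← hadj]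
      have h5 : inner ℝ (B1.symm u) y ≤ ‖B1.symm u‖ * ‖y‖ := real_inner_le_norm _ _
      have h6 : ‖B1.symm u‖ * ‖y‖ ≤ ‖B1.symm u‖ := mul_le_of_le_one_right (norm_nonneg _) hy
      have ht0 : 0 ≤ t := by linarith
      show t * _ ≤ _
      exact mul_le_mul_of_nonneg_left (h5.trans h6) ht0
  · rintro ⟨A, hA⟩
    obtain ⟨u, hu⟩ : ∃ u : E (n + 1), u ≠ 0 := exists_ne 0
    have hAu : 0 < ‖A u‖ := norm_pos_iff.2 (fun h => hu (by simpa using h))
    have ht : 1 ≤ t := by
      have h1 := (hA u).1.trans (hA u).2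
      by_contra hlt
      push Not at hlt
      nlinarith
    have ht0 : 0 < t := by linarith
    obtain ⟨B, hB, -⟩ := exists_adj A
    have hadj : ∀ x y, inner ℝ (B.symm x) y = inner ℝ x (A y) := by
      intro x y
      rw [← hB (B.symm x) y, LinearEquiv.apply_symm_apply]
    refine ⟨ht, B.symm, ?_, ?_⟩
    · rintro _ ⟨x, hx, rfl⟩ v
      rw [mem_closedBall_zero_iff] at hx
      show inner ℝ (B.symm x) v ≤ p v
      rw [hadj]
      calc inner ℝ x (A v) ≤ ‖x‖ * ‖A v‖ := real_inner_le_norm _ _
        _ ≤ ‖A v‖ := mul_le_of_le_one_left (norm_nonneg _) hx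
        _ ≤ p v := (hA v).1
    · intro x hx
      have hz : ‖B x‖ ≤ t := by
        by_cases h0 : B x = 0
        · rw [h0, norm_zero]; exact ht0.le
        have hpos : 0 < ‖B x‖ := norm_pos_iff.2 h0
        have h1 : ‖B x‖ ^ 2 = inner ℝ x (A.symm (B x)) := by
          rw [← real_inner_self_eq_norm_sq]
          nth_rewrite 2 [← LinearEquiv.apply_symm_apply A (B x)]
          rw [hB]
        have h2 := hx (A.symm (B x))
        have h3 := (hA (A.symm (B x))).2
        rw [LinearEquiv.apply_symm_apply] at h3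
        nlinarith
      refine ⟨t⁻¹ • B x, ?_, ?_⟩
      · rw [mem_closedBall_zero_iff, norm_smul, norm_inv, Real.norm_eq_abs, abs_of_pos ht0,
          inv_mul_le_iff₀ ht0, mul_one]
        exact hz
      · simp only [map_smul, LinearEquiv.symm_apply_apply, smul_smul, mul_inv_cancel₀ ht0.ne',
          one_smul]

-- TARGET (prove this)
theorem not_ellipsoid {p : E (n + 1) → ℝ} (hp : Good p) (h : 1 < bm p) : ¬ IsEllipsoid (body p) := by
  rintro ⟨x, A, hK⟩
  have hsymm : ∀ v ∈ body p, -v ∈ body p := by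
    intro v hv u
    have h1 := hv (-u)
    have h2 := hp.smul (-1) u
    rw [neg_one_smul] at h2
    rw [h2] at h1
    rw [inner_neg_left]
    rw [inner_neg_right] at h1
    simpa using h1
  have hx : x = 0 := by
    by_contra hx
    have hs : A.symm x ≠ 0 := fun h => hx (by simpa using h)
    have hn : 0 < ‖A.symm x‖ := norm_pos_iff.2 hs
    have h1 : x + A (‖A.symm x‖⁻¹ • A.symm x) ∈ body p := by
      rw [hK]
      exact ⟨_, by
        rw [mem_closedBall_zero_iff, norm_smul, norm_inv, norm_norm, inv_mul_cancel₀ hn.ne'], rfl⟩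
    have h2 := hsymm _ h1
    rw [hK] at h2
    obtain ⟨y', hy', hyx⟩ := h2
    rw [mem_closedBall_zero_iff] at hy'
    simp only [map_smul, LinearEquiv.apply_symm_apply] at hyx
    have h3 : A y' = -(2 + ‖A.symm x‖⁻¹) • x := by
      have : A y' = -(x + ‖A.symm x‖⁻¹ • x) - x := by rw [← hyx]; abel
      rw [this]
      module
    have h4 : y' = -(2 + ‖A.symm x‖⁻¹) • A.symm x := by
      rw [← map_smul, ← h3, LinearEquiv.symm_apply_apply]
    rw [h4, norm_smul, Real.norm_eq_abs, abs_neg, abs_of_pos (by positivity), add_mul,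
      inv_mul_cancel₀ hn.ne'] at hy'
    linarith
  subst hx
  have hK' : body p = A '' closedBall 0 1 := by
    rw [hK]
    simp only [zero_add]
  have hle : distBall (body p) ≤ 1 := by
    unfold distBall
    refine csInf_le ⟨1, fun t ht => ht.1⟩ ⟨le_rfl, A, hK'.symm.subset, ?_⟩
    rw [hK']
    simp only [one_smul]
    exact subset_rfl
  rw [distBall_body hp] at hle
  linarith

end Pool.Agent.Helper873.PBody
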