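import Mathlib
import Pool.Agent.Helper873.PBody.Defs
import Pool.Agent.Helper873.PBody.GI
import Pool.Agent.Helper873.PBody.GE
import Pool.Agent.Helper873.PBody.GG

set_option autoImplicit false

open MeasureTheory Metric Set Filter Topology
open scoped Pointwise

namespace Pool.Agent.Helper873.PBody

variable {n : ℕ}

-- TARGET (prove this)
theorem inClass_comp (hn : 1 ≤ n) {K : Set (E (n + 1))} (hK : InClass K) (A : E (n + 1) ≃ₗ[ℝ] E (n + 1)) :
    InClass (A '' K) := by
  obtain ⟨p, hp, rfl⟩ := exists_of_inClass hK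
  obtain ⟨B, hB, -⟩ := exists_adj A.symm
  have h1 := body_comp (p := p) B A.symm (fun x y => by
    rw [real_inner_comm, hB y x, real_inner_comm])
  rw [LinearEquiv.symm_symm] at h1
  rw [← h1]
  exact inClass_body (fun j => S_comp hn (hp j) B)

-- TARGET (prove this)
theorem inClass_closed (hn : 1 ≤ n) {K : ℕ → Set (E (n + 1))} (hK : ∀ i, InClass (K i))
    {L : Set (E (n + 1))} (hL : IsBody L) (h : Tendsto (fun i => hausdorffDist (K i) L) atTop (𝓝 0)) :
    InClass L := by
  choose p hpS hKp using fun i => exists_of_inClass (hK i)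
  have hgood : ∀ i, Good (p i) := fun i => S_good (hpS i 0)
  have hLne : L.Nonempty := hL.2.2.mono interior_subset
  have hKne : ∀ i, (K i).Nonempty := fun i => (hK i).1.2.2.mono interior_subset
  have hXex : ∀ u : E (n + 1), ∃ x ∈ L, ∀ y ∈ L, (inner ℝ y u : ℝ) ≤ inner ℝ x u := by
    intro u
    obtain ⟨x, hx, hmax⟩ := hL.2.1.exists_isMaxOn hLne
      (f := fun x => (inner ℝ x u : ℝ)) (by fun_prop)
    exact ⟨x, hx, fun y hy => hmax hy⟩
  choose X hXL hXmax using hXex
  obtain ⟨h0, hh0⟩ : ∃ h0 : E (n + 1) → ℝ, ∀ u, h0 u = inner ℝ (X u) u := ⟨_, fun _ => rfl⟩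
  have hle : ∀ u, ∀ y ∈ L, (inner ℝ y u : ℝ) ≤ h0 u := by
    intro u y hy
    rw [hh0]
    exact hXmax u y hy
  have hA : ∀ i u, |p i u - h0 u| ≤ hausdorffDist (K i) L * ‖u‖ := by
    intro i u
    have hfin : hausdorffEDist (K i) L ≠ ⊤ :=
      hausdorffEDist_ne_top_of_nonempty_of_bounded (hKne i) hLne (hK i).1.2.1.isBounded
        hL.2.1.isBounded
    have hfin' : hausdorffEDist L (K i) ≠ ⊤ :=
      hausdorffEDist_ne_top_of_nonempty_of_bounded hLne (hKne i) hL.2.1.isBounded
        (hK i).1.2.1.isBounded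
    have key : ∀ x y : E (n + 1), ∀ d, dist x y ≤ d → (inner ℝ x u : ℝ) ≤ inner ℝ y u + d * ‖u‖ := by
      intro x y d hd
      have h1 : (inner ℝ x u : ℝ) = inner ℝ y u + inner ℝ (x - y) u := by
        rw [inner_sub_left]
        ring
      have h2 := real_inner_le_norm (x - y) u
      rw [dist_eq_norm] at hd
      have h3 := mul_le_mul_of_nonneg_right hd (norm_nonneg u)
      linarith
    rw [abs_le]
    constructor
    · obtain ⟨y, hy, hyd⟩ := (hK i).1.2.1.exists_infDist_eq_dist (hKne i) (X u)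
      have h1 := infDist_le_hausdorffDist_of_mem (hXL u) hfin'
      rw [hausdorffDist_comm, hyd] at h1
      have h2 := key _ _ _ h1
      rw [← hh0] at h2
      rw [hKp i] at hy
      have h3 : (inner ℝ y u : ℝ) ≤ p i u := hy u
      linarith
    · obtain ⟨x, hx, hxu⟩ := support (hgood i) u
      rw [← hKp i] at hx
      obtain ⟨y, hy, hyd⟩ := hL.2.1.exists_infDist_eq_dist hLne x
      have h1 := infDist_le_hausdorffDist_of_mem hx hfin
      rw [hyd] at h1
      have h2 := key _ _ _ h1
      rw [hxu] at h2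
      have h3 := hle u y hy
      linarith
  have hB : ∀ u, Tendsto (fun i => p i u) atTop (𝓝 (h0 u)) := by
    intro u
    rw [tendsto_iff_dist_tendsto_zero]
    have h1 : Tendsto (fun i => hausdorffDist (K i) L * ‖u‖) atTop (𝓝 0) := by
      have := h.mul_const ‖u‖
      rwa [zero_mul] at this
    refine squeeze_zero (fun i => dist_nonneg) (fun i => ?_) h1
    rw [Real.dist_eq]
    exact hA i u
  have hadd : ∀ u v, h0 (u + v) ≤ h0 u + h0 v := by
    intro u v
    exact le_of_tendsto_of_tendsto' (hB (u + v)) ((hB u).add (hB v)) (fun i => (hgood i).add u v)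
  have hsmul : ∀ (c : ℝ) u, h0 (c • u) = |c| * h0 u := by
    intro c u
    refine tendsto_nhds_unique (hB (c • u)) ?_
    have := (hB u).const_mul |c|
    refine this.congr (fun i => ?_)
    exact ((hgood i).smul c u).symm
  obtain ⟨R, hR⟩ := hL.2.1.isBounded.exists_norm_le
  have hup : ∀ u, h0 u ≤ R * ‖u‖ := by
    intro u
    rw [hh0]
    refine (real_inner_le_norm _ _).trans ?_
    exact mul_le_mul_of_nonneg_right (hR _ (hXL u)) (norm_nonneg u)
  obtain ⟨x0, hx0⟩ := hL.2.2
  obtain ⟨ε, hε, hball⟩ := Metric.isOpen_iff.1 isOpen_interior x0 hx0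
  have hlow : ∀ u, ε / 2 * ‖u‖ ≤ h0 u := by
    intro u
    rcases eq_or_ne u 0 with rfl | hu
    · have := hsmul 0 0
      rw [zero_smul, abs_zero, zero_mul] at this
      rw [this, norm_zero, mul_zero]
    · have hun : 0 < ‖u‖ := norm_pos_iff.2 hu
      have key : ∀ v : E (n + 1), ‖v‖ = ‖u‖ → inner ℝ x0 v + ε / 2 * ‖u‖ ≤ h0 v := by
        intro v hv
        have h1 : x0 + (ε / 2 * ‖u‖⁻¹) • v ∈ L := by
          apply interior_subset
          apply hball
          rw [mem_ball, dist_eq_norm, add_sub_cancel_left, norm_smul, hv, norm_mul, norm_inv,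
            norm_norm, mul_assoc, inv_mul_cancel₀ hun.ne', mul_one, Real.norm_of_nonneg (by positivity)]
          linarith
        have h2 := hle v _ h1
        rw [inner_add_left, real_inner_smul_left, real_inner_self_eq_norm_sq, hv] at h2
        have h3 : ε / 2 * ‖u‖⁻¹ * ‖u‖ ^ 2 = ε / 2 * ‖u‖ := by
          field_simp
        rw [h3] at h2
        exact h2
      have h1 := key u rfl
      have h2 := key (-u) (norm_neg u)
      have h3 : h0 (-u) = h0 u := by
        have := hsmul (-1) u
        rw [neg_one_smul, abs_neg, abs_one, one_mul] at this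
        exact this
      rw [inner_neg_right, h3] at h2
      linarith
  have hG : Good h0 := ⟨hadd, hsmul, ε / 2, R, by positivity, fun u => ⟨hlow u, hup u⟩⟩
  have hc : (4 / ε : ℝ) ≠ 0 := by positivity
  have hcpos : (0 : ℝ) < 4 / ε := by positivity
  obtain ⟨A, hAu⟩ : ∃ A : E (n + 1) ≃ₗ[ℝ] E (n + 1), ∀ u, A u = (4 / ε : ℝ) • u :=
    ⟨LinearEquiv.smulOfNeZero ℝ (E (n + 1)) (4 / ε) hc, fun u => rfl⟩
  have hev : ∀ᶠ i in atTop, hausdorffDist (K i) L < ε / 4 := by
    exact h.eventually (gt_mem_nhds (by positivity))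
  have hUf : (Uf : Filter ℕ) ≤ atTop := by
    rw [← Nat.cofinite_eq_atTop]
    exact hyperfilter_le_cofinite
  have hS : ∀ j, h0 ∈ S j := by
    intro j
    have h1 : ∀ᶠ i in Uf, Nice (4 / ε * (R + ε / 4)) (fun u => p i (A u)) ∧
        (fun u => p i (A u)) ∈ S j := by
      refine (Filter.Eventually.filter_mono hUf hev).mono ?_
      intro i hi
      have hi' : hausdorffDist (K i) L < ε / 4 := hi
      refine ⟨⟨good_comp (hgood i) A, ?_⟩, S_comp hn (hpS i j) A⟩
      intro u
      show ‖u‖ ≤ p i (A u) ∧ p i (A u) ≤ _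
      rw [hAu, (hgood i).smul, abs_of_pos hcpos]
      have h2 := abs_le.1 (hA i u)
      have h3 := mul_le_mul_of_nonneg_right hi'.le (norm_nonneg u)
      have h4 := hlow u
      have h5 := hup u
      constructor
      · have h6 : ε / 4 * ‖u‖ ≤ p i u := by linarith
        have h7 := mul_le_mul_of_nonneg_left h6 hcpos.le
        have h8 : 4 / ε * (ε / 4 * ‖u‖) = ‖u‖ := by
          field_simp
        linarith
      · have h6 : p i u ≤ (R + ε / 4) * ‖u‖ := by linarith
        have h7 := mul_le_mul_of_nonneg_left h6 hcpos.le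
        linarith
    have h2 : Nice (4 / ε * (R + ε / 4)) (fun u => h0 (A u)) := by
      refine ⟨good_comp hG A, ?_⟩
      intro u
      show ‖u‖ ≤ h0 (A u) ∧ h0 (A u) ≤ _
      rw [hAu, hsmul, abs_of_pos hcpos]
      have h4 := hlow u
      have h5 := hup u
      have hnn := norm_nonneg u
      constructor
      · have h7 := mul_le_mul_of_nonneg_left h4 hcpos.le
        have h8 : 4 / ε * (ε / 2 * ‖u‖) = 2 * ‖u‖ := by
          field_simp
          ring
        linarith
      · have h6 : h0 u ≤ (R + ε / 4) * ‖u‖ := by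
          have : 0 ≤ ε / 4 * ‖u‖ := by positivity
          linarith
        have h7 := mul_le_mul_of_nonneg_left h6 hcpos.le
        linarith
    have h3 := S_lim hn j h1 h2 (fun u => (hB (A u)).mono_left hUf)
    have h4 := S_comp hn h3 A.symm
    have h5 : (fun u => (fun u => h0 (A u)) (A.symm u)) = h0 := by
      funext u
      show h0 (A (A.symm u)) = h0 u
      rw [LinearEquiv.apply_symm_apply]
    rwa [h5] at h4
  have hbody : L = body h0 := by
    apply body_of_lub hL.1 hL.2.1 h0 hG
    intro u _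
    apply IsGreatest.isLUB
    refine ⟨⟨X u, hXL u, (hh0 u).symm⟩, ?_⟩
    rintro _ ⟨y, hy, rfl⟩
    exact hle u y hy
  rw [hbody]
  exact inClass_body hS

end Pool.Agent.Helper873.PBody
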