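import Mathlib
import Pool.Agent.Helper873.PBody.Defs
import Pool.Agent.Helper873.PBody.GI

set_option autoImplicit false

open MeasureTheory Metric Set Filter Topology
open scoped Pointwise

namespace Pool.Agent.Helper873.PBody

variable {n : ℕ}

-- TARGET (prove this)
theorem hausdorff_body {p q : E n → ℝ} (hp : Good p) (hq : Good q) {δ R : ℝ} (hδ : 0 ≤ δ) (hδ1 : δ < 1) (hR0 : 0 ≤ R)
    (hR : ∀ u, p u ≤ R * ‖u‖) (h : ∀ u, (1 - δ) * p u ≤ q u ∧ q u ≤ (1 + δ) * p u) :
    hausdorffDist (body p) (body q) ≤ δ * R := by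
  apply hausdorffDist_le_of_mem_dist (mul_nonneg hδ hR0)
  · intro x hx
    refine ⟨(1 - δ) • x, ?_, ?_⟩
    · intro u
      rw [real_inner_smul_left]
      exact (mul_le_mul_of_nonneg_left (hx u) (by linarith)).trans (h u).1
    · have hxR : ‖x‖ ≤ R := by simpa using body_sub_ball hR0 hR hx
      have : x - (1 - δ) • x = δ • x := by
        rw [sub_smul, one_smul]; abel
      rw [dist_eq_norm, this, norm_smul, Real.norm_eq_abs, abs_of_nonneg hδ]
      exact mul_le_mul_of_nonneg_left hxR hδ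
  · intro x hx
    have h1 : (0 : ℝ) < 1 + δ := by linarith
    have hy : (1 + δ)⁻¹ • x ∈ body p := by
      intro u
      rw [real_inner_smul_left, inv_mul_le_iff₀ h1]
      exact (hx u).trans (h u).2
    refine ⟨(1 + δ)⁻¹ • x, hy, ?_⟩
    have hyR : ‖(1 + δ)⁻¹ • x‖ ≤ R := by simpa using body_sub_ball hR0 hR hy
    have : x - (1 + δ)⁻¹ • x = δ • ((1 + δ)⁻¹ • x) := by
      have h2 : x = ((1 + δ) * (1 + δ)⁻¹) • x := by
        rw [mul_inv_cancel₀ h1.ne', one_smul]
      nth_rewrite 1 [h2]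
      rw [mul_smul, add_smul, one_smul]; abel
    rw [dist_eq_norm, this, norm_smul, Real.norm_eq_abs, abs_of_nonneg hδ]
    exact mul_le_mul_of_nonneg_left hyR hδ

-- TARGET (prove this)
theorem inv_of_linInv {Φ : Set (E (n + 1)) → ℝ} (h : LinInv Φ) : Inv (fun p => Φ (body p)) := by
  intro p hp A
  obtain ⟨B, hB, _⟩ := exists_adj A
  beta_reduce
  rw [body_comp A B hB]
  exact h _ (isBody_body hp) B.symm

-- TARGET (prove this)
theorem cont_of_hausCont {Φ : Set (E (n + 1)) → ℝ} (h : HausCont Φ) : Cont (fun p => Φ (body p)) := by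
  intro p hp ε hε
  obtain ⟨δ₀, hδ₀, hδ⟩ := h (body p) (isBody_body hp) ε hε
  obtain ⟨r, R, hr, hR⟩ := hp.bd
  obtain ⟨R', hR'⟩ : ∃ R', R' = max R 1 := ⟨_, rfl⟩
  have hR0 : 0 < R' := by
    rw [hR']
    exact lt_of_lt_of_le one_pos (le_max_right _ _)
  have hR1 : ∀ u, p u ≤ R' * ‖u‖ := by
    intro u
    refine (hR u).2.trans (mul_le_mul_of_nonneg_right ?_ (norm_nonneg u))
    rw [hR']
    exact le_max_left _ _
  refine ⟨min (1 / 2) (δ₀ / (2 * R')), lt_min (by norm_num) (by positivity), ?_⟩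
  intro q hq hpq
  refine hδ (body q) (isBody_body hq) ?_
  rw [hausdorffDist_comm]
  have h1 := hausdorff_body hp hq (δ := min (1 / 2) (δ₀ / (2 * R')))
    (le_min (by norm_num) (by positivity))
    (lt_of_le_of_lt (min_le_left _ _) (by norm_num)) hR0.le hR1 hpq
  have h2 : min (1 / 2) (δ₀ / (2 * R')) * R' ≤ δ₀ / (2 * R') * R' :=
    mul_le_mul_of_nonneg_right (min_le_right _ _) hR0.le
  have h3 : δ₀ / (2 * R') * R' = δ₀ / 2 := by
    field_simp
  have h4 : hausdorffDist (body q) (body p) = hausdorffDist (body p) (body q) :=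
    hausdorffDist_comm
  linarith

end Pool.Agent.Helper873.PBody
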