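import Mathlib
import Pool.Agent.Helper873.PBody.GF
import Pool.Agent.Helper873.PBody.GG
import Pool.Agent.Helper873.PBody.GH
import Pool.Agent.Helper873.PBody.GI
import Pool.Agent.Helper873.PBody.GJ
import Pool.Agent.Helper873.PBody.GK
import Pool.Agent.Helper873.PBody.GL
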